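import Mathlib

/-!
Commuting operators `mon α`, `α ∈ ℕ^d`, and the monomials which reduce to smaller ones on a vector.
-/

set_option autoImplicit false

namespace Run7.h505.RV

open Module Finset

section ord

variable {d : ℕ}

/-- the weight of an exponent -/
def om (B : ℕ) (α : Fin d → ℕ) : ℕ := ∑ i, α i * B ^ (i : ℕ)

theorem om_add (B : ℕ) (α β : Fin d → ℕ) : om B (α + β) = om B α + om B β := by
  simp [om, add_mul, Finset.sum_add_distrib]

theorem om_mono (B : ℕ) {α β : Fin d → ℕ} (h : ∀ i, α i ≤ β i) : om B α ≤ om B β :=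
  Finset.sum_le_sum fun i _ => Nat.mul_le_mul_right _ (h i)

theorem om_inj {B : ℕ} {α β : Fin d → ℕ} (hα : ∀ i, α i < B) (hβ : ∀ i, β i < B)
    (h : om B α = om B β) : α = β := by
  let a : Fin d → Fin B := fun i => ⟨α i, hα i⟩
  let b : Fin d → Fin B := fun i => ⟨β i, hβ i⟩
  have h1 : finFunctionFinEquiv a = finFunctionFinEquiv b := by
    apply Fin.ext
    rw [finFunctionFinEquiv_apply, finFunctionFinEquiv_apply]
    exact h
  have h2 : a = b := finFunctionFinEquiv.injective h1
  funext i
  exact congrArg Fin.val (congrFun h2 i)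

end ord

section red

variable {F V : Type*} [Field F] [AddCommGroup V] [Module F V] {d : ℕ}

/-- the span of the monomials of smaller weight -/
def U (mon : (Fin d → ℕ) → End F V) (B : ℕ) (α : Fin d → ℕ) : Submodule F (End F V) :=
  Submodule.span F (mon '' {β | om B β < om B α})

/-- the monomial `α` reduces on `w` -/
def Red (mon : (Fin d → ℕ) → End F V) (B : ℕ) (w : V) (α : Fin d → ℕ) : Prop :=
  ∃ T ∈ U mon B α, mon α w = T w

variable {mon : (Fin d → ℕ) → End F V} (hadd : ∀ α β, mon (α + β) = mon α * mon β) {B : ℕ}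

theorem U_mono {α β : Fin d → ℕ} (h : om B α ≤ om B β) : U mon B α ≤ U mon B β := by
  apply Submodule.span_mono
  apply Set.image_mono
  intro γ hγ
  exact lt_of_lt_of_le hγ h

include hadd

theorem mon_mul_U {α : Fin d → ℕ} (γ : Fin d → ℕ) {T : End F V} (hT : T ∈ U mon B α) :
    mon γ * T ∈ U mon B (γ + α) := by
  unfold U at hT
  induction hT using Submodule.span_induction with
  | mem x hx =>
    obtain ⟨β, hβ, rfl⟩ := hx
    rw [← hadd]
    apply Submodule.subset_span
    refine ⟨γ + β, ?_, rfl⟩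
    have : om B β < om B α := hβ
    show om B (γ + β) < om B (γ + α)
    rw [om_add, om_add]
    omega
  | zero => rw [mul_zero]; exact Submodule.zero_mem _
  | add x y _ _ hx hy => rw [mul_add]; exact Submodule.add_mem _ hx hy
  | smul c x _ hx => rw [mul_smul_comm]; exact Submodule.smul_mem _ _ hx

theorem U_mul_U {α β : Fin d → ℕ} {T T' : End F V} (hT : T ∈ U mon B α) (hT' : T' ∈ U mon B β) :
    T * T' ∈ U mon B (α + β) := by
  unfold U at hT
  induction hT using Submodule.span_induction with
  | mem x hx =>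
    obtain ⟨γ, hγ, rfl⟩ := hx
    have hγ' : om B γ < om B α := hγ
    refine U_mono ?_ (mon_mul_U hadd γ hT')
    rw [om_add, om_add]
    omega
  | zero => rw [zero_mul]; exact Submodule.zero_mem _
  | add x y _ _ hx hy => rw [add_mul]; exact Submodule.add_mem _ hx hy
  | smul c x _ hx => rw [smul_mul_assoc]; exact Submodule.smul_mem _ _ hx

theorem mon_comm (α β : Fin d → ℕ) : mon α * mon β = mon β * mon α := by
  rw [← hadd, ← hadd, add_comm]

theorem U_comm_mon {α : Fin d → ℕ} (γ : Fin d → ℕ) {T : End F V} (hT : T ∈ U mon B α) :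
    T * mon γ = mon γ * T := by
  unfold U at hT
  induction hT using Submodule.span_induction with
  | mem x hx =>
    obtain ⟨β, _, rfl⟩ := hx
    exact mon_comm hadd β γ
  | zero => rw [mul_zero, zero_mul]
  | add x y _ _ hx hy => rw [mul_add, add_mul, hx, hy]
  | smul c x _ hx => rw [mul_smul_comm, smul_mul_assoc, hx]

theorem U_comm_U {α β : Fin d → ℕ} {T T' : End F V} (hT : T ∈ U mon B α) (hT' : T' ∈ U mon B β) :
    T * T' = T' * T := by
  unfold U at hT
  induction hT using Submodule.span_induction with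
  | mem x hx =>
    obtain ⟨γ, _, rfl⟩ := hx
    exact (U_comm_mon hadd γ hT').symm
  | zero => rw [mul_zero, zero_mul]
  | add x y _ _ hx hy => rw [mul_add, add_mul, hx, hy]
  | smul c x _ hx => rw [mul_smul_comm, smul_mul_assoc, hx]

theorem Red_add {w : V} {α : Fin d → ℕ} (γ : Fin d → ℕ) (h : Red mon B w α) :
    Red mon B w (γ + α) := by
  obtain ⟨T, hT, hw⟩ := h
  refine ⟨mon γ * T, mon_mul_U hadd γ hT, ?_⟩
  rw [hadd, Module.End.mul_apply, Module.End.mul_apply, hw]

theorem Red_le {w : V} {α β : Fin d → ℕ} (hαβ : ∀ i, α i ≤ β i) (h : Red mon B w α) :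
    Red mon B w β := by
  have h1 : β = (fun i => β i - α i) + α := by
    funext i
    show β i = β i - α i + α i
    have := hαβ i
    omega
  rw [h1]
  exact Red_add hadd _ h

theorem Red_sub {w w' : V} {α : Fin d → ℕ} (h : Red mon B w α) (h' : Red mon B w' α) :
    Red mon B (w - w') (α + α) := by
  obtain ⟨T, hT, hw⟩ := h
  obtain ⟨T', hT', hw'⟩ := h'
  refine ⟨mon α * T' + mon α * T - T * T', Submodule.sub_mem _ (Submodule.add_mem _
    (mon_mul_U hadd α hT') (mon_mul_U hadd α hT)) (U_mul_U hadd hT hT'), ?_⟩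
  have c1 := U_comm_mon hadd α hT
  have c2 := U_comm_mon hadd α hT'
  have c3 := U_comm_U hadd hT hT'
  have e1 : mon α (mon α w) = mon α (T' w) + mon α (T w) - T (T' w) := by
    have h1 : T (T' w) = T' (T w) := congrArg (fun X : End F V => X w) c3
    have h2 : T' (mon α w) = mon α (T' w) := congrArg (fun X : End F V => X w) c2
    rw [h1, hw, ← h2, hw]
    abel
  have e2 : mon α (mon α w') = mon α (T' w') + mon α (T w') - T (T' w') := by
    have h2 : T (mon α w') = mon α (T w') := congrArg (fun X : End F V => X w') c1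
    rw [hw', ← h2, hw']
    abel
  rw [hadd, Module.End.mul_apply, map_sub, map_sub, e1, e2]
  simp only [LinearMap.sub_apply, LinearMap.add_apply, Module.End.mul_apply, map_sub]

omit hadd

/-- the standard monomials of a vector -/
noncomputable def Dl (mon : (Fin d → ℕ) → End F V) (B : ℕ) (w : V) : Finset (Fin d → ℕ) :=
  open Classical in
  (Fintype.piFinset fun _ : Fin d => range B).filter fun α => ¬ Red mon B w α

theorem mem_Dl {w : V} {α : Fin d → ℕ} :
    α ∈ Dl mon B w ↔ (∀ i, α i < B) ∧ ¬ Red mon B w α := by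
  classical
  unfold Dl
  rw [Finset.mem_filter, Fintype.mem_piFinset]
  simp

theorem U_apply {w : V} {α : Fin d → ℕ} {T : End F V} (hT : T ∈ U mon B α) :
    T w ∈ Submodule.span F ((fun β => mon β w) '' {β | om B β < om B α}) := by
  unfold U at hT
  induction hT using Submodule.span_induction with
  | mem x hx =>
    obtain ⟨β, hβ, rfl⟩ := hx
    exact Submodule.subset_span ⟨β, hβ, rfl⟩
  | zero => exact Submodule.zero_mem _
  | add x y _ _ hx hy => exact Submodule.add_mem _ hx hy
  | smul c x _ hx => exact Submodule.smul_mem _ _ hx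

/-- the standard monomials span -/
theorem span_Dl (hper : ∀ γ, ∃ γ' : Fin d → ℕ, (∀ i, γ' i < B) ∧ om B γ' ≤ om B γ ∧
      mon γ' = mon γ) (w : V) (γ : Fin d → ℕ) :
    mon γ w ∈ Submodule.span F ((fun β => mon β w) '' (Dl mon B w : Set (Fin d → ℕ))) := by
  induction hn : om B γ using Nat.strong_induction_on generalizing γ with
  | _ n ih =>
    obtain ⟨γ', h1, h2, h3⟩ := hper γ
    rw [← h3]
    by_cases hR : Red mon B w γ'
    · obtain ⟨T, hT, hw⟩ := hR
      rw [hw]
      refine (Submodule.span_le.2 ?_) (U_apply hT)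
      rintro _ ⟨β, hβ, rfl⟩
      have hβ' : om B β < om B γ' := hβ
      exact ih (om B β) (by omega) β rfl
    · exact Submodule.subset_span ⟨γ', Finset.mem_coe.2 (mem_Dl.2 ⟨h1, hR⟩), rfl⟩

/-- the standard monomials are linearly independent -/
theorem li_Dl (w : V) : LinearIndependent F (fun β : ↥(Dl mon B w) => mon β.1 w) := by
  classical
  rw [linearIndependent_iff']
  intro s c hc
  by_contra hcon
  push Not at hcon
  obtain ⟨i₀, hi₀, hci₀⟩ := hcon
  obtain ⟨i, hi, hmax⟩ := Finset.exists_max_image (s.filter fun i => c i ≠ 0)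
    (fun i => om B i.1) ⟨i₀, Finset.mem_filter.2 ⟨hi₀, hci₀⟩⟩
  obtain ⟨his, hci⟩ := Finset.mem_filter.1 hi
  have hi2 := mem_Dl.1 i.2
  apply hi2.2
  refine ⟨∑ k ∈ s.erase i, (-(c i)⁻¹ * c k) • mon k.1, ?_, ?_⟩
  · apply Submodule.sum_mem
    intro k hk
    obtain ⟨hki, hks⟩ := Finset.mem_erase.1 hk
    by_cases hck : c k = 0
    · rw [hck, mul_zero, zero_smul]
      exact Submodule.zero_mem _
    · apply Submodule.smul_mem
      apply Submodule.subset_span
      refine ⟨k.1, ?_, rfl⟩
      have h1 := hmax k (Finset.mem_filter.2 ⟨hks, hck⟩)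
      refine lt_of_le_of_ne h1 fun h2 => hki ?_
      exact Subtype.ext (om_inj (mem_Dl.1 k.2).1 hi2.1 h2)
  · have h1 : c i • mon i.1 w + ∑ k ∈ s.erase i, c k • mon k.1 w = 0 := by
      rw [Finset.add_sum_erase s (fun k => c k • mon k.1 w) his]
      exact hc
    have h2 : mon i.1 w = (c i)⁻¹ • (c i • mon i.1 w) := by
      rw [smul_smul, inv_mul_cancel₀ hci, one_smul]
    rw [h2, eq_neg_of_add_eq_zero_left h1, LinearMap.sum_apply, smul_neg, Finset.smul_sum,
      ← Finset.sum_neg_distrib]
    refine Finset.sum_congr rfl fun k _ => ?_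
    rw [LinearMap.smul_apply, smul_smul, neg_mul, neg_smul]

/-- the number of standard monomials is at most the dimension -/
theorem card_Dl (w : V) (P : Submodule F V) [FiniteDimensional F P] (hP : ∀ α, mon α w ∈ P) :
    (Dl mon B w).card ≤ finrank F P := by
  have h1 := li_Dl (mon := mon) (B := B) w
  have h2 : LinearIndependent F (fun β : ↥(Dl mon B w) => (⟨mon β.1 w, hP _⟩ : P)) := by
    apply LinearIndependent.of_comp P.subtype
    exact h1
  have h3 := h2.fintype_card_le_finrank
  rwa [Fintype.card_coe] at h3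

end red

end Run7.h505.RV
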