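import Pool.Agent.Run7.h505.RV.A

/-!
Dyadic types of vectors and the set of positions which separates the vectors of a given type.
-/

set_option autoImplicit false

namespace Run7.h505.RV

open Module Finset

section

variable {d : ℕ}

/-- the corner of a dyadic shell -/
def corner (s : Fin d → ℕ) : Fin d → ℕ := fun i => 2 ^ (s i) / 2

/-- the dyadic shell of an exponent -/
def sz (α : Fin d → ℕ) : Fin d → ℕ := fun i => Nat.size (α i)

/-- half of an exponent -/
def hf (α : Fin d → ℕ) : Fin d → ℕ := fun i => α i / 2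

theorem corner_le (α : Fin d → ℕ) (i : Fin d) : corner (sz α) i ≤ α i := by
  show 2 ^ (Nat.size (α i)) / 2 ≤ α i
  rcases Nat.eq_zero_or_pos (Nat.size (α i)) with h | h
  · rw [h]; simp
  · obtain ⟨k, hk⟩ : ∃ k, Nat.size (α i) = k + 1 := ⟨Nat.size (α i) - 1, by omega⟩
    rw [hk, pow_succ, Nat.mul_div_cancel _ (by norm_num)]
    exact Nat.lt_size.1 (by omega)

theorem le_corner (α : Fin d → ℕ) (i : Fin d) : α i / 2 ≤ corner (sz α) i :=
  Nat.div_le_div_right (Nat.lt_size_self _).le

theorem corner_big {L : ℕ} {α : Fin d → ℕ} {i : Fin d} (h : L < sz α i) :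
    2 ^ L ≤ corner (sz α) i := by
  show 2 ^ L ≤ 2 ^ (sz α i) / 2
  obtain ⟨k, hk⟩ : ∃ k, sz α i = L + 1 + k := ⟨sz α i - (L + 1), by omega⟩
  rw [hk, Nat.le_div_iff_mul_le (by norm_num), ← pow_succ]
  exact Nat.pow_le_pow_right (by norm_num) (by omega)

variable {F V : Type*} [Field F] [AddCommGroup V] [Module F V]
  {mon : (Fin d → ℕ) → End F V}

/-- the type of a vector -/
noncomputable def Ty (mon : (Fin d → ℕ) → End F V) (B L : ℕ) (w : V) :
    Finset (Fin d → Fin (L + 1)) :=
  open Classical in univ.filter fun s => ¬ Red mon B w (corner fun i => (s i : ℕ))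

theorem mem_Ty {B L : ℕ} {w : V} {s : Fin d → Fin (L + 1)} :
    s ∈ Ty mon B L w ↔ ¬ Red mon B w (corner fun i => (s i : ℕ)) := by
  classical
  unfold Ty
  rw [Finset.mem_filter]
  simp

/-- the positions of a type -/
noncomputable def Es (B L : ℕ) (T : Finset (Fin d → Fin (L + 1))) : Finset (Fin d → ℕ) :=
  open Classical in
  (Fintype.piFinset fun _ : Fin d => range B).filter fun γ =>
    ∃ s ∈ T, ∀ i, sz (hf γ) i = (s i : ℕ)

theorem mem_Es {B L : ℕ} {T : Finset (Fin d → Fin (L + 1))} {γ : Fin d → ℕ} :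
    γ ∈ Es B L T ↔ (∀ i, γ i < B) ∧ ∃ s ∈ T, ∀ i, sz (hf γ) i = (s i : ℕ) := by
  classical
  unfold Es
  rw [Finset.mem_filter, Fintype.mem_piFinset]
  simp

variable (hadd : ∀ α β, mon (α + β) = mon α * mon β)

include hadd

theorem big_red {B r : ℕ} (hB : r < B) {w : V} (hw : (Dl mon B w).card ≤ r) {α : Fin d → ℕ}
    {i : Fin d} (hi : r ≤ α i) : Red mon B w α := by
  classical
  by_contra hR
  have h1 : ∀ k ≤ r, (Pi.single i k : Fin d → ℕ) ∈ Dl mon B w := by
    intro k hk
    rw [mem_Dl]
    constructor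
    · intro l
      by_cases hl : l = i
      · subst hl; rw [Pi.single_eq_same]; omega
      · rw [Pi.single_eq_of_ne hl]; omega
    · intro hR2
      apply hR
      refine Red_le hadd ?_ hR2
      intro l
      by_cases hl : l = i
      · subst hl; rw [Pi.single_eq_same]; omega
      · rw [Pi.single_eq_of_ne hl]; omega
  have h2 : (range (r + 1)).card ≤ (Dl mon B w).card := by
    apply Finset.card_le_card_of_injOn (fun k => (Pi.single i k : Fin d → ℕ))
    · intro k hk
      exact Finset.mem_coe.2 (h1 k (by have := mem_range.1 (Finset.mem_coe.1 hk); omega))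
    · intro k _ l _ hkl
      exact Pi.single_injective i hkl
  rw [card_range] at h2
  omega

theorem Dl_sub {B r : ℕ} (hB : r < B) {w w' : V} (hw : (Dl mon B w).card ≤ r)
    (hw' : (Dl mon B w').card ≤ r) (hT : Ty mon B (Nat.size r) w = Ty mon B (Nat.size r) w') :
    Dl mon B (w - w') ⊆ Es B (Nat.size r) (Ty mon B (Nat.size r) w) := by
  intro γ hγ
  obtain ⟨h1, h2⟩ := mem_Dl.1 hγ
  have hr : r ≤ 2 ^ Nat.size r := (Nat.lt_size_self _).le
  have h3 : ¬ Red mon B w (corner (sz (hf γ))) := by
    intro hR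
    apply h2
    have hR' : Red mon B w' (corner (sz (hf γ))) := by
      by_cases hL : ∀ i, sz (hf γ) i ≤ Nat.size r
      · by_contra hcon
        let s : Fin d → Fin (Nat.size r + 1) := fun i => ⟨sz (hf γ) i, Nat.lt_succ_of_le (hL i)⟩
        have h4 : s ∈ Ty mon B (Nat.size r) w' := mem_Ty.2 hcon
        rw [← hT, mem_Ty] at h4
        exact h4 hR
      · push Not at hL
        obtain ⟨i, hi⟩ := hL
        exact big_red hadd hB hw' (hr.trans (corner_big hi))
    refine Red_le hadd ?_ (Red_sub hadd hR hR')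
    intro i
    have h4 := corner_le (hf γ) i
    have h5 : hf γ i = γ i / 2 := rfl
    show corner (sz (hf γ)) i + corner (sz (hf γ)) i ≤ γ i
    omega
  have hL : ∀ i, sz (hf γ) i ≤ Nat.size r := by
    by_contra hcon
    push Not at hcon
    obtain ⟨i, hi⟩ := hcon
    exact h3 (big_red hadd hB hw (hr.trans (corner_big hi)))
  rw [mem_Es]
  exact ⟨h1, fun i => ⟨sz (hf γ) i, Nat.lt_succ_of_le (hL i)⟩, mem_Ty.2 h3, fun i => rfl⟩

theorem card_Es {B L : ℕ} (w : V) :
    (Es B L (Ty mon B L w)).card ≤ (Dl mon B w).card * 4 ^ d := by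
  classical
  have h1 : (Es B L (Ty mon B L w)).card ≤
      ((Dl mon B w) ×ˢ (univ : Finset (Fin d → Fin 4))).card := by
    apply Finset.card_le_card_of_injOn
      (fun γ => (hf (hf γ), fun i => (⟨γ i % 4, Nat.mod_lt _ (by norm_num)⟩ : Fin 4)))
    · intro γ hγ
      obtain ⟨h1, s, hs, hsz⟩ := mem_Es.1 (Finset.mem_coe.1 hγ)
      rw [Finset.mem_coe, Finset.mem_product]
      refine ⟨mem_Dl.2 ⟨?_, ?_⟩, mem_univ _⟩
      · intro i
        show γ i / 2 / 2 < B
        have := h1 i
        omega
      · intro hR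
        rw [mem_Ty] at hs
        apply hs
        have h2 : (fun i => (s i : ℕ)) = sz (hf γ) := funext fun i => (hsz i).symm
        rw [h2]
        exact Red_le hadd (fun i => le_corner (hf γ) i) hR
    · intro γ _ γ' _ h
      funext i
      have h1 := congrFun (congrArg Prod.fst h) i
      have h2 := congrArg Fin.val (congrFun (congrArg Prod.snd h) i)
      have h3 : γ i / 2 / 2 = γ' i / 2 / 2 := h1
      have h4 : γ i % 4 = γ' i % 4 := h2
      omega
  rw [Finset.card_product, Finset.card_univ, Fintype.card_fun, Fintype.card_fin,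
    Fintype.card_fin] at h1
  exact h1

end

end Run7.h505.RV
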