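import Pool.Agent.Run7.h505.RV.B
import Pool.Agent.Run7.h505.RT.J

/-!
Functions on a finite group `G` and the translations by an abelian subgroup.
-/

set_option autoImplicit false

namespace Run7.h505.RV

open Module Finset Run7.h505.RT

/-- a product of powers -/
def gp {B : Type} [CommGroup B] {d : ℕ} (x : Fin d → B) (α : Fin d → ℕ) : B := ∏ i, x i ^ α i

theorem gp_add {B : Type} [CommGroup B] {d : ℕ} (x : Fin d → B) (α β : Fin d → ℕ) :
    gp x (α + β) = gp x α * gp x β := by
  unfold gp
  rw [← Finset.prod_mul_distrib]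
  exact Finset.prod_congr rfl fun i _ => pow_add _ _ _

/-- the operators -/
def mn (F : Type) [Field F] {G : Type} [Group G] {B : Type} [CommGroup B] (j : B →* G) {d : ℕ}
    (x : Fin d → B) (α : Fin d → ℕ) : End F (G → F) := R F (j (gp x α))

/-- left translation -/
def Lt (F : Type) [Field F] {G : Type} [Group G] (z : G) : End F (G → F) where
  toFun w := fun y => w (z * y)
  map_add' _ _ := rfl
  map_smul' _ _ := rfl

/-- the span of the translates -/
def Pb (F : Type) [Field F] {G : Type} [Group G] {B : Type} [CommGroup B] (j : B →* G)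
    (w : G → F) : Submodule F (G → F) := Submodule.span F (Set.range fun b : B => R F (j b) w)

/-- its dimension -/
noncomputable def rb (F : Type) [Field F] {G : Type} [Group G] {B : Type} [CommGroup B]
    (j : B →* G) (w : G → F) : ℕ := finrank F (Pb F j w)

section

variable {F : Type} [Field F] {G : Type} [Group G] {B : Type} [CommGroup B] {j : B →* G} {d : ℕ}
  {x : Fin d → B}

theorem mn_add (α β : Fin d → ℕ) : mn F j x (α + β) = mn F j x α * mn F j x β := by
  unfold mn
  rw [gp_add, map_mul, R_mul]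

theorem mn_per [Fintype B] {N : ℕ} (hN : Fintype.card B ≤ N) (γ : Fin d → ℕ) :
    ∃ γ' : Fin d → ℕ, (∀ i, γ' i < N) ∧ om N γ' ≤ om N γ ∧ mn F j x γ' = mn F j x γ := by
  have hpos : 0 < Fintype.card B := Fintype.card_pos
  refine ⟨fun i => γ i % Fintype.card B, ?_, ?_, ?_⟩
  · intro i
    exact lt_of_lt_of_le (Nat.mod_lt _ hpos) hN
  · exact om_mono _ fun i => Nat.mod_le _ _
  · unfold mn gp
    congr 2
    exact Finset.prod_congr rfl fun i _ => pow_mod_card _ _

theorem mn_mem (w : G → F) (α : Fin d → ℕ) : mn F j x α w ∈ Pb F j w :=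
  Submodule.subset_span ⟨gp x α, rfl⟩

theorem rb_le [Fintype G] (w : G → F) : rb F j w ≤ Fintype.card G := by
  have h1 : rb F j w ≤ finrank F (G → F) := Submodule.finrank_le _
  rwa [finrank_fintype_fun_eq_card] at h1

theorem rb_le_Vw [Finite G] (w : G → F) : rb F j w ≤ finrank F (Vw F w) := by
  apply Submodule.finrank_mono
  unfold Pb Vw
  apply Submodule.span_mono
  rintro _ ⟨b, rfl⟩
  exact ⟨j b, rfl⟩

theorem card_Dl_le [Finite G] {N : ℕ} (w : G → F) : (Dl (mn F j x) N w).card ≤ rb F j w :=
  card_Dl w _ (mn_mem w)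

/-- a function is determined by its samples at the standard monomials -/
theorem sep [Fintype G] [Fintype B] (hx : ∀ b : B, ∃ α : Fin d → ℕ, b = gp x α) {N : ℕ}
    (hN : Fintype.card B ≤ N) (u : G → F)
    (hu : ∀ γ ∈ Dl (mn F j x) N u, evA j.range (mn F j x γ u) = 0) : u = 0 := by
  have h1 : ∀ γ, evA j.range (mn F j x γ u) = 0 := by
    intro γ
    have h2 := span_Dl (mn_per (F := F) (j := j) (x := x) hN) u γ
    refine Submodule.span_induction (p := fun v _ => evA j.range v = 0) ?_ (map_zero _) ?_ ?_ h2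
    · rintro _ ⟨β, hβ, rfl⟩
      exact hu β hβ
    · intro a b _ _ ha hb
      rw [map_add, ha, hb, add_zero]
    · intro c a _ ha
      rw [map_smul, ha, smul_zero]
  funext y
  set A := j.range with hA
  have h2 : (QuotientGroup.mk (QuotientGroup.mk y : G ⧸ A).out : G ⧸ A) = QuotientGroup.mk y :=
    Quotient.out_eq _
  obtain ⟨b, hb⟩ := QuotientGroup.eq.1 h2
  obtain ⟨α, rfl⟩ := hx b
  have h3 : u ((QuotientGroup.mk y : G ⧸ A).out * j (gp x α)) = 0 :=
    congrFun (h1 α) (QuotientGroup.mk y)
  rw [hb] at h3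
  show u y = 0
  rw [← h3]
  congr 1
  group

theorem U_comm_apply {V : Type*} [AddCommGroup V] [Module F V] {mon : (Fin d → ℕ) → End F V}
    {N : ℕ} (Λ : End F V) (hΛ : ∀ α v, Λ (mon α v) = mon α (Λ v)) {α : Fin d → ℕ} {T : End F V}
    (hT : T ∈ U mon N α) (v : V) : Λ (T v) = T (Λ v) := by
  unfold U at hT
  induction hT using Submodule.span_induction with
  | mem y hy =>
    obtain ⟨β, _, rfl⟩ := hy
    exact hΛ _ _
  | zero => simp
  | add y z _ _ hy hz => rw [LinearMap.add_apply, map_add, hy, hz, LinearMap.add_apply]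
  | smul c y _ hy => rw [LinearMap.smul_apply, map_smul, hy, LinearMap.smul_apply]

/-- operators commuting with the monomials preserve reduction -/
theorem Red_comm {V : Type*} [AddCommGroup V] [Module F V] {mon : (Fin d → ℕ) → End F V} {N : ℕ}
    (Λ : End F V) (hΛ : ∀ α v, Λ (mon α v) = mon α (Λ v)) {w : V} {α : Fin d → ℕ}
    (h : Red mon N w α) : Red mon N (Λ w) α := by
  obtain ⟨T, hT, hw⟩ := h
  refine ⟨T, hT, ?_⟩
  rw [← hΛ, hw, U_comm_apply Λ hΛ hT]

theorem Lt_mn (z : G) (α : Fin d → ℕ) (v : G → F) :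
    Lt F z (mn F j x α v) = mn F j x α (Lt F z v) := by
  funext y
  show v (z * y * j (gp x α)) = v (z * (y * j (gp x α)))
  rw [mul_assoc]

theorem Lt_inv (z : G) (v : G → F) : Lt F z⁻¹ (Lt F z v) = v := by
  funext y
  show v (z * (z⁻¹ * y)) = v y
  rw [mul_inv_cancel_left]

theorem Red_Lt {N : ℕ} (z : G) (w : G → F) (α : Fin d → ℕ) :
    Red (mn F j x) N (Lt F z w) α ↔ Red (mn F j x) N w α := by
  constructor
  · intro h
    have := Red_comm (Lt F z⁻¹) (Lt_mn z⁻¹) h
    rwa [Lt_inv] at this
  · exact Red_comm (Lt F z) (Lt_mn z)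

theorem Ty_Lt {N L : ℕ} (z : G) (w : G → F) :
    Ty (mn F j x) N L (Lt F z w) = Ty (mn F j x) N L w := by
  ext s
  rw [mem_Ty, mem_Ty, Red_Lt]

theorem rb_Lt (z : G) (w : G → F) : rb F j (Lt F z w) = rb F j w := by
  have h1 : ∀ (z : G) (w : G → F), Pb F j (Lt F z w) = (Pb F j w).map (Lt F z) := by
    intro z w
    unfold Pb
    rw [Submodule.map_span, ← Set.range_comp]
    congr 2
    funext b
    funext y
    show w (z * (y * j b)) = w (z * y * j b)
    rw [mul_assoc]
  unfold rb
  rw [h1]
  have hinj : Function.Injective (Lt F z : (G → F) → (G → F)) := by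
    intro a b hab
    rw [← Lt_inv z a, hab, Lt_inv]
  exact (LinearEquiv.finrank_eq (Submodule.equivMapOfInjective _ hinj _)).symm

open Classical in
/-- the number of non-zero samples -/
noncomputable def ns (F : Type) [Field F] {G : Type} [Group G] {B : Type} [CommGroup B]
    (j : B →* G) {d : ℕ} (x : Fin d → B) (E : Finset (Fin d → ℕ)) (w : G → F) : ℕ :=
  (E.filter fun γ => evA j.range (mn F j x γ w) ≠ 0).card

open Classical in
theorem sum_ns [Fintype G] (E : Finset (Fin d → ℕ)) (w : G → F) :
    ∑ z : G, ns F j x E (Lt F z w) ≤ E.card * (j.range.index * wt w) := by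
  have : Fintype (G ⧸ j.range) := Fintype.ofFinite _
  have h1 : ∀ z : G, ns F j x E (Lt F z w) ≤
      ∑ γ ∈ E, ∑ c : G ⧸ j.range, if w (z * (c.out * j (gp x γ))) ≠ 0 then 1 else 0 := by
    intro z
    unfold ns
    rw [Finset.card_filter]
    apply Finset.sum_le_sum
    intro γ _
    split_ifs with h
    · by_contra hcon
      apply h
      have h2 : ∀ c ∈ (univ : Finset (G ⧸ j.range)),
          (if w (z * (c.out * j (gp x γ))) ≠ 0 then 1 else 0) = 0 := by
        apply Finset.sum_eq_zero_iff.1
        omega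
      funext c
      have h3 := h2 c (mem_univ _)
      by_contra h4
      have h5 : w (z * (c.out * j (gp x γ))) ≠ 0 := h4
      rw [if_pos h5] at h3
      omega
    · exact Nat.zero_le _
  refine (Finset.sum_le_sum fun z _ => h1 z).trans ?_
  rw [Finset.sum_comm]
  have h2 : ∀ γ ∈ E, ∑ z : G, ∑ c : G ⧸ j.range,
      (if w (z * (c.out * j (gp x γ))) ≠ 0 then 1 else 0) = j.range.index * wt w := by
    intro γ _
    rw [Finset.sum_comm]
    have h3 : ∀ c : G ⧸ j.range, ∑ z : G, (if w (z * (c.out * j (gp x γ))) ≠ 0 then 1 else 0) =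
        wt w := by
      intro c
      rw [← Finset.card_filter]
      unfold wt
      apply Finset.card_bij (fun z _ => z * (c.out * j (gp x γ)))
      · intro z hz
        exact Finset.mem_filter.2 ⟨mem_univ _, (Finset.mem_filter.1 hz).2⟩
      · intro z _ z' _ h
        exact mul_right_cancel h
      · intro y hy
        refine ⟨y * (c.out * j (gp x γ))⁻¹, Finset.mem_filter.2 ⟨mem_univ _, ?_⟩, by group⟩
        rw [inv_mul_cancel_right]
        exact (Finset.mem_filter.1 hy).2
    rw [Finset.sum_congr rfl fun c _ => h3 c, Finset.sum_const, Finset.card_univ, smul_eq_mul,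
      Subgroup.index, Nat.card_eq_fintype_card]
  rw [Finset.sum_congr rfl h2, Finset.sum_const, smul_eq_mul]

/-- averaging over the left translations -/
theorem average [Fintype G] (hj : Function.Injective j) {ι : Type} [Fintype ι]
    (E : ι → Finset (Fin d → ℕ)) (w : ι → G → F) (θ : ℝ)
    (hw : ((∑ i, wt (w i) : ℕ) : ℝ) ≤ θ * Nat.card B) :
    ∃ z : G, ∀ i, (ns F j x (E i) (Lt F z (w i)) : ℝ) ≤ θ * (E i).card := by
  by_contra hcon
  push Not at hcon
  have hcard : (Fintype.card G : ℝ) = j.range.index * Nat.card B := by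
    have h1 : Nat.card j.range = Nat.card B := (Nat.card_congr (Equiv.ofInjective j hj)).symm
    rw [← Nat.card_eq_fintype_card, ← j.range.index_mul_card, h1]
    push_cast
    rfl
  have h1 : ∀ z ∈ (univ : Finset G),
      θ < ∑ i, (ns F j x (E i) (Lt F z (w i)) : ℝ) / (E i).card := by
    intro z _
    obtain ⟨i, hi⟩ := hcon z
    have hpos : (0 : ℝ) < (E i).card := by
      rcases Nat.eq_zero_or_pos (E i).card with h0 | h0
      · exfalso
        have h2 : ns F j x (E i) (Lt F z (w i)) = 0 := by
          unfold ns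
          rw [Finset.card_eq_zero] at h0
          rw [h0]
          simp
        rw [h2, h0] at hi
        simp at hi
      · exact_mod_cast h0
    have h2 : θ < (ns F j x (E i) (Lt F z (w i)) : ℝ) / (E i).card := by
      rwa [lt_div_iff₀ hpos]
    refine lt_of_lt_of_le h2 ?_
    exact Finset.single_le_sum (f := fun i => (ns F j x (E i) (Lt F z (w i)) : ℝ) / (E i).card)
      (fun i _ => by positivity) (mem_univ i)
  have h2 := Finset.sum_lt_sum_of_nonempty ⟨1, mem_univ _⟩ h1
  rw [Finset.sum_const, Finset.card_univ, nsmul_eq_mul, Finset.sum_comm] at h2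
  have h3 : ∀ i ∈ (univ : Finset ι), ∑ z : G, (ns F j x (E i) (Lt F z (w i)) : ℝ) / (E i).card ≤
      j.range.index * wt (w i) := by
    intro i _
    rw [← Finset.sum_div]
    have h4 : (∑ z : G, (ns F j x (E i) (Lt F z (w i)) : ℝ)) ≤
        (E i).card * (j.range.index * wt (w i)) := by
      exact_mod_cast sum_ns (F := F) (j := j) (x := x) (E i) (w i)
    rcases Nat.eq_zero_or_pos (E i).card with h0 | h0
    · rw [h0, Nat.cast_zero, div_zero]
      positivity
    · have h5 : (0 : ℝ) < (E i).card := by exact_mod_cast h0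
      rw [div_le_iff₀ h5]
      linarith
  have h4 := Finset.sum_le_sum h3
  rw [← Finset.mul_sum] at h4
  have h5 : (j.range.index : ℝ) * ∑ i, (wt (w i) : ℝ) ≤ j.range.index * (θ * Nat.card B) := by
    apply mul_le_mul_of_nonneg_left _ (Nat.cast_nonneg _)
    rw [← Nat.cast_sum]
    exact hw
  rw [hcard] at h2
  linarith

end

end Run7.h505.RV
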