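import Pool.Agent.Run7.h505.RV.C

/-!
Counting functions of small weight.
-/

set_option autoImplicit false

namespace Run7.h505.RV

open Module Finset Run7.h505.RT

section

variable {F : Type} [Field F] {G : Type} [Group G] {B : Type} [CommGroup B] {j : B →* G} {d : ℕ}
  {x : Fin d → B}

/-- the positions attached to a function -/
noncomputable def Ew (F : Type) [Field F] {G : Type} [Group G] [Fintype G] {B : Type}
    [CommGroup B] (j : B →* G) {d : ℕ} (x : Fin d → B) (w : G → F) : Finset (Fin d → ℕ) :=
  Es (Fintype.card G + 1) (Nat.size (rb F j w))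
    (Ty (mn F j x) (Fintype.card G + 1) (Nat.size (rb F j w)) w)

theorem Ew_Lt [Fintype G] (z : G) (w : G → F) : Ew F j x (Lt F z w) = Ew F j x w := by
  unfold Ew
  rw [rb_Lt, Ty_Lt]

open Classical in
/-- functions of rank `r` with few non-zero samples -/
noncomputable def Sp (F : Type) [Field F] [Fintype F] {G : Type} [Group G] [Fintype G] {B : Type}
    [CommGroup B] (j : B →* G) {d : ℕ} (x : Fin d → B) (r : ℕ) (θ : ℝ) : Finset (G → F) :=
  univ.filter fun w => rb F j w = r ∧ (ns F j x (Ew F j x w) w : ℝ) ≤ θ * (Ew F j x w).card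

open Classical in
theorem card_le_ns (E : Finset (Fin d → ℕ)) (w : G → F) {ι : Type} (S : Finset ι)
    (f : ι → Fin d → ℕ) (hf : ∀ a ∈ S, f a ∈ E ∧ evA j.range (mn F j x (f a) w) ≠ 0)
    (hinj : Set.InjOn f (S : Set ι)) : S.card ≤ ns F j x E w := by
  unfold ns
  exact Finset.card_le_card_of_injOn f (fun a ha => Finset.mem_coe.2 (Finset.mem_filter.2
    (hf a (Finset.mem_coe.1 ha)))) hinj

open Classical in
theorem card_Sp [Fintype F] [Fintype G] [Fintype B] (hj : Function.Injective j)
    (hx : ∀ b : B, ∃ α : Fin d → ℕ, b = gp x α) (r : ℕ) (θ K : ℝ) (hθ : 0 ≤ θ) (hK : 1 ≤ K) :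
    ((Sp F j x r θ).card : ℝ) ≤ (2 : ℝ) ^ ((Nat.size r + 1) ^ d) *
      (((Nat.card (G ⧸ j.range → F) : ℝ) * K) ^ (θ * (4 ^ d * r : ℕ)) *
        (1 + 1 / K) ^ (4 ^ d * r)) := by
  set N := Fintype.card G + 1 with hN
  set L := Nat.size r with hL
  set bd : ℝ := ((Nat.card (G ⧸ j.range → F) : ℝ) * K) ^ (θ * (4 ^ d * r : ℕ)) *
        (1 + 1 / K) ^ (4 ^ d * r) with hbd
  have hK0 : 0 < K := by linarith
  have hbd0 : 0 ≤ bd := by positivity
  have : Fintype (G ⧸ j.range) := Fintype.ofFinite _
  have hW1 : (1 : ℝ) ≤ Nat.card (G ⧸ j.range → F) := by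
    have : 0 < Nat.card (G ⧸ j.range → F) := Nat.card_pos
    exact_mod_cast this
  have hWK : 1 ≤ (Nat.card (G ⧸ j.range → F) : ℝ) * K := by nlinarith
  have hBN : Fintype.card B ≤ N := by
    have := Fintype.card_le_of_injective j hj
    omega
  have hadd : ∀ α β, mn F j x (α + β) = mn F j x α * mn F j x β := mn_add
  -- one type
  have h1 : ∀ T : Finset (Fin d → Fin (L + 1)),
      (((Sp F j x r θ).filter fun w => Ty (mn F j x) N L w = T).card : ℝ) ≤ bd := by
    intro T
    rcases Finset.eq_empty_or_nonempty ((Sp F j x r θ).filter fun w =>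
      Ty (mn F j x) N L w = T) with he | ⟨w₀, hw₀⟩
    · rw [he, Finset.card_empty, Nat.cast_zero]
      exact hbd0
    · obtain ⟨hw₀S, hw₀T⟩ := Finset.mem_filter.1 hw₀
      have hr₀ := (Finset.mem_filter.1 hw₀S).2.1
      set E := Es N L T with hE
      have hEcard : E.card ≤ 4 ^ d * r := by
        rw [hE, ← hw₀T]
        refine (card_Es hadd w₀).trans ?_
        rw [mul_comm]
        exact Nat.mul_le_mul_left _ ((card_Dl_le w₀).trans hr₀.le)
      have hball := ball (↥E) (G ⧸ j.range → F) K (θ * E.card) hK
      rw [Fintype.card_coe, ← Nat.card_eq_fintype_card (α := (G ⧸ j.range → F))] at hball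
      have h2 : (((Sp F j x r θ).filter fun w => Ty (mn F j x) N L w = T).card : ℝ) ≤
          ((Nat.card (G ⧸ j.range → F) : ℝ) * K) ^ (θ * E.card) * (1 + 1 / K) ^ E.card := by
        refine le_trans ?_ hball
        rw [Nat.cast_le]
        apply Finset.card_le_card_of_injOn
          (fun w => fun γ : ↥E => evA j.range (mn F j x γ.1 w))
        · intro w hw
          obtain ⟨hwS, hwT⟩ := Finset.mem_filter.1 (Finset.mem_coe.1 hw)
          obtain ⟨hwr, hwn⟩ := (Finset.mem_filter.1 hwS).2
          rw [Finset.mem_coe, Finset.mem_filter]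
          refine ⟨mem_univ _, ?_⟩
          have h3 : Ew F j x w = E := by
            unfold Ew
            rw [hwr]
            show Es N L (Ty (mn F j x) N L w) = E
            rw [hwT]
          rw [h3] at hwn
          refine le_trans ?_ hwn
          rw [Nat.cast_le]
          apply card_le_ns E w _ (fun γ : ↥E => γ.1)
          · intro γ hγ
            exact ⟨γ.2, (Finset.mem_filter.1 hγ).2⟩
          · intro γ _ γ' _ h
            exact Subtype.ext h
        · intro w hw w' hw' heq
          obtain ⟨hwS, hwT⟩ := Finset.mem_filter.1 (Finset.mem_coe.1 hw)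
          obtain ⟨hwr, _⟩ := (Finset.mem_filter.1 hwS).2
          obtain ⟨hwS', hwT'⟩ := Finset.mem_filter.1 (Finset.mem_coe.1 hw')
          obtain ⟨hwr', _⟩ := (Finset.mem_filter.1 hwS').2
          have hrN : r < N := by
            have := rb_le (F := F) (j := j) w
            omega
          have hsub := Dl_sub (B := N) hadd hrN ((card_Dl_le (j := j) (x := x) w).trans hwr.le)
            ((card_Dl_le (j := j) (x := x) w').trans hwr'.le) (hwT.trans hwT'.symm)
          have h4 : w - w' = 0 := by
            apply sep hx hBN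
            intro γ hγ
            have h5 : γ ∈ E := by
              have h6 := hsub hγ
              rw [show Ty (mn F j x) N (Nat.size r) w = T from hwT] at h6
              exact h6
            have h7 := congrFun heq ⟨γ, h5⟩
            rw [map_sub, map_sub, sub_eq_zero]
            exact h7
          exact sub_eq_zero.1 h4
      refine h2.trans ?_
      rw [hbd]
      apply mul_le_mul
      · apply Real.rpow_le_rpow_of_exponent_le hWK
        apply mul_le_mul_of_nonneg_left _ hθ
        exact_mod_cast hEcard
      · apply pow_le_pow_right₀ _ hEcard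
        have : 0 < 1 / K := by positivity
        linarith
      · positivity
      · positivity
  have h2 : ((Sp F j x r θ).card : ℝ) = ∑ T : Finset (Fin d → Fin (L + 1)),
      (((Sp F j x r θ).filter fun w => Ty (mn F j x) N L w = T).card : ℝ) := by
    rw [← Nat.cast_sum]
    congr 1
    exact Finset.card_eq_sum_card_fiberwise (fun w _ => Finset.mem_coe.2 (mem_univ _))
  rw [h2]
  refine (Finset.sum_le_sum fun T _ => h1 T).trans ?_
  rw [Finset.sum_const, Finset.card_univ, nsmul_eq_mul, Fintype.card_finset, Fintype.card_fun,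
    Fintype.card_fin, Fintype.card_fin]
  push_cast
  exact le_rfl

open Classical in
/-- the uncertainty principle -/
theorem uncertainty [Fintype G] [Fintype B] (hj : Function.Injective j) (w : G → F)
    (hw : w ≠ 0) : Nat.card B ≤ rb F j w * wt w := by
  obtain ⟨y₀, hy₀⟩ : ∃ y, w y ≠ 0 := by
    by_contra hcon
    push Not at hcon
    exact hw (funext hcon)
  set S : Set (G → F) := Set.range fun b : B => R F (j b) w with hS
  obtain ⟨Q, hQS, hQspan, hQli⟩ := exists_linearIndependent F S
  have hQfin : Q.Finite := (Set.finite_range _).subset hQS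
  have := hQfin.fintype
  have hcard : Fintype.card Q = rb F j w := by
    have h1 := finrank_span_set_eq_card hQli
    rw [hQspan] at h1
    rw [← Set.toFinset_card, ← h1]
    rfl
  -- every position `y₀ b` is covered
  have hcov : ∀ a : B, ∃ v ∈ Q, v (y₀ * j a) ≠ 0 := by
    intro a
    by_contra hcon
    push Not at hcon
    have h1 : ∀ v ∈ Submodule.span F Q, v (y₀ * j a) = 0 := by
      intro v hv
      induction hv using Submodule.span_induction with
      | mem x hx => exact hcon x hx
      | zero => rfl
      | add x y _ _ hx hy => rw [Pi.add_apply, hx, hy, add_zero]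
      | smul c x _ hx => rw [Pi.smul_apply, hx, smul_zero]
    have h2 : R F (j a⁻¹) w ∈ Submodule.span F Q := by
      rw [hQspan]
      exact Submodule.subset_span ⟨a⁻¹, rfl⟩
    have h3 := h1 _ h2
    rw [R_apply, mul_assoc, ← map_mul, mul_inv_cancel, map_one, mul_one] at h3
    exact hy₀ h3
  choose f hf hf2 using hcov
  have hinj : Function.Injective (fun a : B => y₀ * j a) := by
    intro a b hab
    exact hj (mul_left_cancel hab)
  have h1 : Fintype.card B ≤ ∑ v : Q, (univ.filter fun y => v.1 y ≠ 0).card := by
    rw [← Finset.card_sigma, ← Finset.card_univ]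
    apply Finset.card_le_card_of_injOn (fun a : B => (⟨⟨f a, hf a⟩, y₀ * j a⟩ : Σ _ : Q, G))
    · intro a _
      have h2 := hf2 a
      simp only [Finset.coe_sigma, Finset.coe_univ, Finset.coe_filter, Finset.mem_univ, true_and]
      exact ⟨trivial, h2⟩
    · intro a _ b _ hab
      apply hinj
      have := congrArg (fun z : (Σ _ : Q, G) => z.2) hab
      exact this
  have h2 : ∀ v : Q, (univ.filter fun y => v.1 y ≠ 0).card = wt w := by
    rintro ⟨v, hv⟩
    obtain ⟨a, rfl⟩ := hQS hv
    unfold wt
    apply Finset.card_bij (fun y _ => y * j a)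
    · intro y hy
      have := (Finset.mem_filter.1 hy).2
      exact Finset.mem_filter.2 ⟨mem_univ _, this⟩
    · intro y _ z _ hyz
      exact mul_right_cancel hyz
    · intro y hy
      refine ⟨y * (j a)⁻¹, ?_, by group⟩
      have h3 := (Finset.mem_filter.1 hy).2
      refine Finset.mem_filter.2 ⟨mem_univ _, ?_⟩
      show w (y * (j a)⁻¹ * j a) ≠ 0
      rwa [inv_mul_cancel_right]
  rw [Finset.sum_congr rfl fun v _ => h2 v, Finset.sum_const, Finset.card_univ, smul_eq_mul,
    hcard] at h1
  rwa [Nat.card_eq_fintype_card]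

end

end Run7.h505.RV
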