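import Pool.Agent.Run7.h505.RV.D

/-!
The numerical part.
-/

set_option autoImplicit false

namespace Run7.h505.RV

open Module Finset Run7.h505.RT Filter Asymptotics

theorem types_bound (d : ℕ) (c : ℝ) (hc : 0 < c) : ∃ r₁ : ℕ, ∀ r : ℕ, r₁ ≤ r →
    (2 : ℝ) ^ ((Nat.size r + 1) ^ d) ≤ Real.exp (c * r) := by
  have h1 : (fun x : ℝ => Real.log x ^ d) =o[atTop] (id : ℝ → ℝ) :=
    Real.isLittleO_pow_log_id_atTop
  have h2 := (h1.def (show (0 : ℝ) < c / 6 ^ d by positivity)).natCast_atTop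
  obtain ⟨r₁, hr₁⟩ := eventually_atTop.1 h2
  refine ⟨max r₁ 3, fun r hr => ?_⟩
  have hr3 : 3 ≤ r := (le_max_right _ _).trans hr
  have h3 := hr₁ r ((le_max_left _ _).trans hr)
  have hrR : (3 : ℝ) ≤ r := by exact_mod_cast hr3
  have hlog1 : 1 ≤ Real.log r := by
    rw [Real.le_log_iff_exp_le (by linarith)]
    have := Real.exp_one_lt_d9
    linarith
  simp only [id, Real.norm_eq_abs] at h3
  rw [abs_of_nonneg (by positivity), abs_of_nonneg (by positivity)] at h3
  have hl2 : (1 / 2 : ℝ) ≤ Real.log 2 := by have := Real.log_two_gt_d9; linarith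
  have hl2' : Real.log 2 ≤ 1 := by have := Real.log_two_lt_d9; linarith
  -- the size
  obtain ⟨k, hk⟩ : ∃ k, Nat.size r = k + 1 := by
    have : 0 < Nat.size r := Nat.size_pos.2 (by omega)
    exact ⟨Nat.size r - 1, by omega⟩
  have h4 : 2 ^ k ≤ r := Nat.lt_size.1 (by omega)
  have h5 : (k : ℝ) * Real.log 2 ≤ Real.log r := by
    rw [← Real.log_pow]
    apply Real.log_le_log (by positivity)
    exact_mod_cast h4
  have h6 : (k : ℝ) ≤ 2 * Real.log r := by
    have : (k : ℝ) * (1 / 2) ≤ k * Real.log 2 := mul_le_mul_of_nonneg_left hl2 (Nat.cast_nonneg k)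
    linarith
  have h7 : ((Nat.size r + 1 : ℕ) : ℝ) ≤ 6 * Real.log r := by
    rw [hk]
    push_cast
    linarith
  have h8 : (((Nat.size r + 1) ^ d : ℕ) : ℝ) ≤ c * r := by
    push_cast
    calc ((Nat.size r : ℝ) + 1) ^ d ≤ (6 * Real.log r) ^ d := by
          apply pow_le_pow_left₀ (by positivity)
          push_cast at h7
          exact h7
      _ = 6 ^ d * Real.log r ^ d := mul_pow _ _ _
      _ ≤ 6 ^ d * (c / 6 ^ d * r) := mul_le_mul_of_nonneg_left h3 (by positivity)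
      _ = c * r := by field_simp
  rw [← Real.log_le_iff_le_exp (by positivity), Real.log_pow]
  calc (((Nat.size r + 1) ^ d : ℕ) : ℝ) * Real.log 2 ≤ (((Nat.size r + 1) ^ d : ℕ) : ℝ) * 1 :=
        mul_le_mul_of_nonneg_left hl2' (Nat.cast_nonneg _)
    _ ≤ c * r := by rw [mul_one]; exact h8

/-- the function to be summed -/
noncomputable def term (q m d n M : ℕ) (K θ : ℝ) (r : ℕ) : ℝ :=
  ((2 : ℝ) ^ ((Nat.size r + 1) ^ d) *
    (((q : ℝ) ^ m * K) ^ (θ * (4 ^ d * r : ℕ)) * (1 + 1 / K) ^ (4 ^ d * r))) *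
    (q : ℝ) ^ (((M : ℝ) - r) / n)

theorem analytic (q m d n M : ℕ) (hq : 2 ≤ q) (hn : 1 ≤ n) :
    ∃ (K θ : ℝ) (r₀ : ℕ), 1 ≤ K ∧ 0 < θ ∧ 1 ≤ r₀ ∧ ∀ R : ℕ,
      ∑ r ∈ Ico r₀ R, term q m d n M K θ r < 1 := by
  have hqR : (2 : ℝ) ≤ q := by exact_mod_cast hq
  have hnR : (1 : ℝ) ≤ n := by exact_mod_cast hn
  set D : ℝ := 4 ^ d with hD
  have hD0 : 0 < D := by positivity
  have hlq : 0 < Real.log q := Real.log_pos (by linarith)
  set c : ℝ := Real.log q / n with hc
  have hc0 : 0 < c := by positivity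
  set K : ℝ := max 1 (8 * D / c) with hK
  have hK1 : 1 ≤ K := le_max_left _ _
  have hK0 : 0 < K := by linarith
  have hKc : D / K ≤ c / 8 := by
    rw [div_le_iff₀ hK0]
    have : 8 * D / c ≤ K := le_max_right _ _
    rw [div_le_iff₀ hc0] at this
    linarith
  have hqm : (1 : ℝ) ≤ (q : ℝ) ^ m := one_le_pow₀ (by linarith)
  have hqK : 1 ≤ (q : ℝ) ^ m * K := by nlinarith
  have hqK0 : 0 < (q : ℝ) ^ m * K := by linarith
  set lK : ℝ := Real.log ((q : ℝ) ^ m * K) with hlK
  have hlK0 : 0 ≤ lK := Real.log_nonneg hqK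
  set θ : ℝ := c / (8 * D * (lK + 1)) with hθ
  have hθ0 : 0 < θ := by positivity
  have hθc : θ * D * lK ≤ c / 8 := by
    have h1 : θ * D * (lK + 1) = c / 8 := by
      rw [hθ]
      field_simp
    nlinarith [mul_pos hθ0 hD0]
  obtain ⟨r₁, hr₁⟩ := types_bound d (c / 4) (by positivity)
  set x : ℝ := Real.exp (-(c / 2)) with hx
  have hx0 : 0 < x := Real.exp_pos _
  have hx1 : x < 1 := by rw [hx, Real.exp_lt_one_iff]; linarith
  have htend : Tendsto (fun r : ℕ => Real.exp (c * M) * (x ^ r / (1 - x))) atTop (nhds 0) := by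
    have h1 := tendsto_pow_atTop_nhds_zero_of_lt_one hx0.le hx1
    have h2 := (h1.div_const (1 - x)).const_mul (Real.exp (c * M))
    simpa using h2
  obtain ⟨r₂, hr₂⟩ := eventually_atTop.1 (htend.eventually (gt_mem_nhds one_pos))
  refine ⟨K, θ, max (max r₁ 1) r₂, hK1, hθ0, (le_max_right r₁ 1).trans (le_max_left _ _),
    fun R => ?_⟩
  have hterm : ∀ r ∈ Ico (max (max r₁ 1) r₂) R, term q m d n M K θ r ≤
      Real.exp (c * M) * x ^ r := by
    intro r hr
    have hr1 : r₁ ≤ r := (le_max_left r₁ 1).trans ((le_max_left _ _).trans (mem_Ico.1 hr).1)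
    have e1 := hr₁ r hr1
    have e2 : ((q : ℝ) ^ m * K) ^ (θ * (4 ^ d * r : ℕ)) ≤ Real.exp (c / 8 * r) := by
      rw [Real.rpow_def_of_pos hqK0]
      apply Real.exp_le_exp.2
      push_cast
      calc Real.log ((q : ℝ) ^ m * K) * (θ * (4 ^ d * r)) = (θ * D * lK) * r := by
            rw [hlK, hD]; ring
        _ ≤ c / 8 * r := mul_le_mul_of_nonneg_right hθc (Nat.cast_nonneg r)
    have e3 : (1 + 1 / K) ^ (4 ^ d * r) ≤ Real.exp (c / 8 * r) := by
      have h1 : 1 + 1 / K ≤ Real.exp (1 / K) := by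
        have := Real.add_one_le_exp (1 / K); linarith
      have h0 : 0 ≤ 1 + 1 / K := by positivity
      refine (pow_le_pow_left₀ h0 h1 _).trans ?_
      rw [← Real.exp_nat_mul]
      apply Real.exp_le_exp.2
      push_cast
      calc (4 : ℝ) ^ d * r * (1 / K) = (D / K) * r := by rw [hD]; ring
        _ ≤ c / 8 * r := mul_le_mul_of_nonneg_right hKc (Nat.cast_nonneg r)
    have e4 : (q : ℝ) ^ (((M : ℝ) - r) / n) = Real.exp (c * M - c * r) := by
      rw [Real.rpow_def_of_pos (by linarith)]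
      congr 1
      rw [hc]
      field_simp
    unfold term
    rw [e4]
    calc _ ≤ (Real.exp (c / 4 * r) * (Real.exp (c / 8 * r) * Real.exp (c / 8 * r))) *
          Real.exp (c * M - c * r) := by
          apply mul_le_mul_of_nonneg_right _ (Real.exp_pos _).le
          apply mul_le_mul e1 _ (by positivity) (Real.exp_pos _).le
          apply mul_le_mul e2 e3 (by positivity) (Real.exp_pos _).le
      _ = Real.exp (c * M) * x ^ r := by
          rw [hx, ← Real.exp_nat_mul, ← Real.exp_add, ← Real.exp_add, ← Real.exp_add,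
            ← Real.exp_add]
          congr 1
          ring
  calc ∑ r ∈ Ico (max (max r₁ 1) r₂) R, term q m d n M K θ r
      ≤ ∑ r ∈ Ico (max (max r₁ 1) r₂) R, Real.exp (c * M) * x ^ r := Finset.sum_le_sum hterm
    _ = Real.exp (c * M) * ∑ r ∈ Ico (max (max r₁ 1) r₂) R, x ^ r := by rw [Finset.mul_sum]
    _ ≤ Real.exp (c * M) * (x ^ (max (max r₁ 1) r₂) / (1 - x)) :=
        mul_le_mul_of_nonneg_left (geom_sum_Ico_le_of_lt_one hx0.le hx1) (Real.exp_pos _).le
    _ < 1 := hr₂ _ (le_max_right _ _)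

open Classical in
/-- the functions with few non-zero samples, weighted by their rank -/
theorem sum_low (F : Type) [Field F] [Fintype F] (m d M n : ℕ) (hn : 1 ≤ n) :
    ∃ (θ : ℝ) (r₀ : ℕ), 0 < θ ∧ 1 ≤ r₀ ∧ ∀ (G : Type) [Group G] [Fintype G] (B : Type)
      [CommGroup B] [Fintype B] (j : B →* G) (x : Fin d → B), Function.Injective j →
      (∀ b : B, ∃ α : Fin d → ℕ, b = gp x α) → j.range.index ≤ m →
      ∑ w ∈ univ.filter (fun w : G → F => r₀ ≤ rb F j w ∧
          (ns F j x (Ew F j x w) w : ℝ) ≤ θ * (Ew F j x w).card),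
        (Fintype.card F : ℝ) ^ (((M : ℝ) - rb F j w) / (n : ℝ)) < 1 := by
  set q := Fintype.card F with hq
  have hq2 : 2 ≤ q := Fintype.one_lt_card
  have hqR : (2 : ℝ) ≤ q := by exact_mod_cast hq2
  obtain ⟨K, θ, r₀, hK, hθ, hr₀, hsum⟩ := analytic q m d n M hq2 hn
  refine ⟨θ, r₀, hθ, hr₀, ?_⟩
  intro G _ _ B _ _ j x hj hx hm
  have hK0 : 0 < K := by linarith
  set S : Finset (G → F) := univ.filter (fun w : G → F => r₀ ≤ rb F j w ∧
          (ns F j x (Ew F j x w) w : ℝ) ≤ θ * (Ew F j x w).card) with hS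
  have h1 : ∑ w ∈ S, (q : ℝ) ^ (((M : ℝ) - rb F j w) / (n : ℝ)) =
      ∑ r ∈ Ico r₀ (Fintype.card G + 1), ∑ w ∈ S.filter (fun w => rb F j w = r),
        (q : ℝ) ^ (((M : ℝ) - rb F j w) / (n : ℝ)) := by
    symm
    apply Finset.sum_fiberwise_of_maps_to
    intro w hw
    have h2 := rb_le (F := F) (j := j) w
    exact mem_Ico.2 ⟨(Finset.mem_filter.1 hw).2.1, by omega⟩
  rw [h1]
  refine lt_of_le_of_lt (Finset.sum_le_sum fun r _ => ?_) (hsum (Fintype.card G + 1))
  have h2 : ∑ w ∈ S.filter (fun w => rb F j w = r),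
        (q : ℝ) ^ (((M : ℝ) - rb F j w) / (n : ℝ)) =
      (S.filter (fun w => rb F j w = r)).card * (q : ℝ) ^ (((M : ℝ) - r) / (n : ℝ)) := by
    rw [← nsmul_eq_mul, ← Finset.sum_const]
    refine Finset.sum_congr rfl fun w hw => ?_
    rw [(Finset.mem_filter.1 hw).2]
  rw [h2]
  unfold term
  apply mul_le_mul_of_nonneg_right _ (by positivity)
  have h3 := card_Sp (F := F) hj hx r θ K hθ.le hK
  have h4 : ((S.filter (fun w => rb F j w = r)).card : ℝ) ≤ ((Sp F j x r θ).card : ℝ) := by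
    rw [Nat.cast_le]
    apply Finset.card_le_card
    intro w hw
    obtain ⟨hw1, hw2⟩ := Finset.mem_filter.1 hw
    exact Finset.mem_filter.2 ⟨mem_univ _, hw2, (Finset.mem_filter.1 hw1).2.2⟩
  refine h4.trans (h3.trans ?_)
  apply mul_le_mul_of_nonneg_left _ (by positivity)
  apply mul_le_mul_of_nonneg_right _ (by
    have : 0 < 1 / K := by positivity
    positivity)
  apply Real.rpow_le_rpow (by positivity)
  · apply mul_le_mul_of_nonneg_right _ (by linarith)
    have : Fintype (G ⧸ j.range) := Fintype.ofFinite _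
    have h5 : Nat.card (G ⧸ j.range → F) = q ^ j.range.index := by
      rw [Nat.card_eq_fintype_card, Fintype.card_fun, Subgroup.index, Nat.card_eq_fintype_card]
    rw [h5]
    push_cast
    exact pow_le_pow_right₀ (by linarith) hm
  · positivity

end Run7.h505.RV
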