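import Pool.Agent.Run7.h505.RV.E

/-!
The main existence theorem.
-/

set_option autoImplicit false

namespace Run7.h505.RV

open Module Finset Run7.h505.RT

section

variable {F : Type} [Field F] {G : Type} [Group G] {ι : Type}

/-- the component of a word on the orbit `i` -/
def cp (w : ι × G → F) (i : ι) : G → F := fun x => w (i, x)

theorem cv_apply [Fintype G] (w b : G → F) (y : G) : cv w b y = ∑ x, b x * w (y * x) := by
  show (∑ x, b x • R F x w) y = _
  rw [Finset.sum_apply]
  rfl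

/-- the linear map in `w` -/
noncomputable def Lb [Fintype ι] [Fintype G] (b : ι × G → F) : (ι × G → F) →ₗ[F] (G → F) where
  toFun w := fun y => ∑ i, ∑ x, b (i, x) * w (i, y * x)
  map_add' w w' := by
    funext y
    simp only [Pi.add_apply, mul_add, Finset.sum_add_distrib]
  map_smul' c w := by
    funext y
    simp only [Pi.smul_apply, smul_eq_mul, RingHom.id_apply, Finset.mul_sum]
    refine Finset.sum_congr rfl fun i _ => Finset.sum_congr rfl fun x _ => ?_
    ring

/-- the linear map in `b` -/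
noncomputable def Lw [Fintype ι] [Fintype G] (w : ι × G → F) : (ι × G → F) →ₗ[F] (G → F) where
  toFun b := fun y => ∑ i, ∑ x, b (i, x) * w (i, y * x)
  map_add' w w' := by
    funext y
    simp only [Pi.add_apply, add_mul, Finset.sum_add_distrib]
  map_smul' c w := by
    funext y
    simp only [Pi.smul_apply, smul_eq_mul, RingHom.id_apply, Finset.mul_sum]
    refine Finset.sum_congr rfl fun i _ => Finset.sum_congr rfl fun x _ => ?_
    ring

theorem Lb_shift [Fintype ι] [Fintype G] (b c : ι × G → F) (z : G) :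
    Lb b (fun x : ι × G => c (x.1, z * x.2)) = fun y => Lb b c (z * y) := by
  funext y
  show ∑ i, ∑ x, b (i, x) * c (i, z * (y * x)) = ∑ i, ∑ x, b (i, x) * c (i, z * y * x)
  simp only [mul_assoc]

theorem range_Lw_R [Fintype ι] [Fintype G] (w : ι × G → F) :
    ∀ v ∈ LinearMap.range (Lw w), ∀ a : G, R F a v ∈ LinearMap.range (Lw w) := by
  rintro _ ⟨b, rfl⟩ a
  refine ⟨fun p => b (p.1, a⁻¹ * p.2), ?_⟩
  funext y
  show ∑ i, ∑ x, b (i, a⁻¹ * x) * w (i, y * x) = ∑ i, ∑ x, b (i, x) * w (i, y * a * x)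
  refine Finset.sum_congr rfl fun i _ => ?_
  refine Fintype.sum_equiv (Equiv.mulLeft a⁻¹) _ _ fun x => ?_
  show b (i, a⁻¹ * x) * w (i, y * x) = b (i, a⁻¹ * x) * w (i, y * a * (a⁻¹ * x))
  rw [mul_assoc y a, mul_inv_cancel_left]

theorem Vw_le_range [Fintype ι] [Fintype G] (w : ι × G → F) (i : ι) :
    Vw F (cp w i) ≤ LinearMap.range (Lw w) := by
  classical
  rw [← range_cv]
  rintro _ ⟨b, rfl⟩
  refine ⟨fun x => if x.1 = i then b x.2 else 0, ?_⟩
  funext y
  rw [cv_apply]
  show ∑ j, ∑ x, (if j = i then b x else 0) * w (j, y * x) = _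
  rw [Finset.sum_eq_single i]
  · simp [cp]
  · intro j _ hj
    simp [hj]
  · simp

/-- the dimension of the image in the quotient -/
theorem finrank_map_mkQ {V : Type} [AddCommGroup V] [Module F V] [FiniteDimensional F V]
    (X Y : Submodule F V) : finrank F (X.map Y.mkQ) + finrank F (X ⊓ Y : Submodule F V) =
      finrank F X := by
  have h1 := LinearMap.finrank_range_add_finrank_ker (Y.mkQ.comp X.subtype)
  have h2 : LinearMap.range (Y.mkQ.comp X.subtype) = X.map Y.mkQ := by
    rw [LinearMap.range_comp, Submodule.range_subtype]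
  have h3 : LinearMap.ker (Y.mkQ.comp X.subtype) = Y.comap X.subtype := by
    rw [LinearMap.ker_comp, Submodule.ker_mkQ]
  have h4 : finrank F (X ⊓ Y : Submodule F V) = finrank F (Y.comap X.subtype) := by
    rw [← Submodule.map_comap_subtype]
    exact (LinearEquiv.finrank_eq (Submodule.equivMapOfInjective _
      X.injective_subtype (Y.comap X.subtype))).symm
  rw [h2, h3] at h1
  rw [h4, h1]

/-- the dimension of a preimage -/
theorem finrank_comap {V W : Type} [AddCommGroup V] [Module F V] [FiniteDimensional F V]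
    [AddCommGroup W] [Module F W] [FiniteDimensional F W] (φ : V →ₗ[F] W) (Y : Submodule F W) :
    finrank F (Y.comap φ) + finrank F (LinearMap.range φ) =
      finrank F V + finrank F (LinearMap.range φ ⊓ Y : Submodule F W) := by
  have h1 := LinearMap.finrank_range_add_finrank_ker (Y.mkQ.comp φ)
  have h2 : LinearMap.range (Y.mkQ.comp φ) = (LinearMap.range φ).map Y.mkQ := by
    rw [LinearMap.range_comp]
  have h3 : LinearMap.ker (Y.mkQ.comp φ) = Y.comap φ := by
    rw [LinearMap.ker_comp, Submodule.ker_mkQ]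
  have h4 := finrank_map_mkQ (LinearMap.range φ) Y
  rw [h2, h3] at h1
  omega

theorem one_add_pow {x : ℝ} (hx0 : 0 ≤ x) (hx1 : x ≤ 1) (ℓ : ℕ) :
    (1 + x) ^ ℓ ≤ 1 + (2 ^ ℓ - 1) * x := by
  induction ℓ with
  | zero => simp
  | succ n ih =>
    have h1 : (0 : ℝ) ≤ 2 ^ n - 1 := by
      have : (1 : ℝ) ≤ 2 ^ n := one_le_pow₀ (by norm_num)
      linarith
    have h2 : x * x ≤ x := by nlinarith
    calc (1 + x) ^ (n + 1) = (1 + x) ^ n * (1 + x) := pow_succ _ _
      _ ≤ (1 + (2 ^ n - 1) * x) * (1 + x) := mul_le_mul_of_nonneg_right ih (by linarith)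
      _ = 1 + x + (2 ^ n - 1) * x + (2 ^ n - 1) * (x * x) := by ring
      _ ≤ 1 + x + (2 ^ n - 1) * x + (2 ^ n - 1) * x := by nlinarith
      _ = 1 + (2 ^ (n + 1) - 1) * x := by rw [pow_succ]; ring

end

open Classical in
/-- **Good codes.** -/
theorem good_gen (F : Type) [Field F] [Fintype F] (m d ℓ n M : ℕ) (hℓ : 1 ≤ ℓ) (hn : 1 ≤ n) :
    ∃ δ : ℝ, 0 < δ ∧ ∀ (G : Type) [Group G] [Fintype G] (B : Type) [CommGroup B] [Fintype B]
      (j : B →* G) (x : Fin d → B), Function.Injective j →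
      (∀ b : B, ∃ α : Fin d → ℕ, b = gp x α) → j.range.index ≤ m →
      ∀ Y : Submodule F (G → F), (∀ y ∈ Y, ∀ z : G, (fun x => y (z * x)) ∈ Y) →
      (∀ V : Submodule F (G → F), (∀ v ∈ V, ∀ a : G, R F a v ∈ V) →
        finrank F V + n * finrank F (V ⊓ Y : Submodule F (G → F)) ≤ n * finrank F V + M) →
      ∃ C : Submodule F (Fin ℓ × G → F),
        (∀ c ∈ C, ∀ z : G, (fun x : Fin ℓ × G => c (x.1, z * x.2)) ∈ C) ∧
        ℓ * Fintype.card G + finrank F Y ≤ finrank F C + Fintype.card G ∧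
        ∀ c ∈ C, c ≠ 0 → δ * Fintype.card G <
          ((univ.filter fun x : Fin ℓ × G => c x ≠ 0).card : ℝ) := by
  set q := Fintype.card F with hq
  have hq2 : 2 ≤ q := Fintype.one_lt_card
  have hqR : (2 : ℝ) ≤ q := by exact_mod_cast hq2
  have hℓR : (1 : ℝ) ≤ ℓ := by exact_mod_cast hℓ
  have hnR : (1 : ℝ) ≤ n := by exact_mod_cast hn
  obtain ⟨θ, r₀, hθ, hr₀, hsum⟩ := sum_low F m d (n * ℓ * (ℓ + M)) (n * ℓ)
    (Nat.one_le_iff_ne_zero.2 (Nat.mul_ne_zero (by omega) (by omega)))
  have hr₀R : (1 : ℝ) ≤ r₀ := by exact_mod_cast hr₀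
  have hm0 : (0 : ℝ) ≤ m := Nat.cast_nonneg m
  have hm1 : (0 : ℝ) < (m : ℝ) + 1 := by positivity
  set δ : ℝ := min (θ / (m + 1)) (1 / ((m + 1) * r₀)) with hδ
  have hδ0 : 0 < δ := lt_min (by positivity) (by positivity)
  refine ⟨δ, hδ0, ?_⟩
  intro G _ _ B _ _ j x hj hx hm Y hY hYV
  have hsum' := hsum G B j x hj hx hm
  have hcardG : (Fintype.card G : ℝ) = j.range.index * Nat.card B := by
    have h1 : Nat.card j.range = Nat.card B := (Nat.card_congr (Equiv.ofInjective j hj)).symm
    rw [← Nat.card_eq_fintype_card, ← j.range.index_mul_card, h1]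
    push_cast
    rfl
  have hmR : (j.range.index : ℝ) ≤ m := by exact_mod_cast hm
  have hBpos : (0 : ℝ) < Nat.card B := by exact_mod_cast Nat.card_pos
  set S₁ : Finset (G → F) := univ.filter (fun w : G → F => r₀ ≤ rb F j w ∧
          (ns F j x (Ew F j x w) w : ℝ) ≤ θ * (Ew F j x w).card) with hS₁
  set f : (G → F) → ℝ := fun w => (q : ℝ) ^ (-(rb F j w : ℝ) / ((n * ℓ : ℕ) : ℝ)) with hf
  have hfpos : ∀ w, 0 < f w := fun w => by positivity
  have hrb0 : rb F j (0 : G → F) = 0 := by
    have h3 : Pb F j (0 : G → F) = ⊥ := by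
      unfold Pb
      rw [Submodule.span_eq_bot]
      rintro _ ⟨x, rfl⟩
      exact map_zero _
    unfold rb
    rw [h3, finrank_bot]
  have hf0 : f 0 = 1 := by
    rw [hf]
    simp [hrb0]
  have h0S₁ : (0 : G → F) ∉ S₁ := by
    intro h
    have := (Finset.mem_filter.1 h).2.1
    rw [hrb0] at this
    omega
  -- the sum over `S₁`
  set y : ℝ := ∑ w ∈ S₁, f w with hy
  have hy0 : 0 ≤ y := Finset.sum_nonneg fun w _ => (hfpos w).le
  have hy1 : y * (q : ℝ) ^ (ℓ + M) < 1 := by
    have h1 : ∀ w ∈ S₁, f w * (q : ℝ) ^ (ℓ + M) =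
        (q : ℝ) ^ ((((n * ℓ * (ℓ + M) : ℕ) : ℝ) - rb F j w) / ((n * ℓ : ℕ) : ℝ)) := by
      intro w _
      rw [hf]
      simp only
      rw [← Real.rpow_natCast (q : ℝ) (ℓ + M), ← Real.rpow_add (by linarith)]
      congr 1
      have h2 : (0 : ℝ) < n := by linarith
      have h3 : (0 : ℝ) < ℓ := by linarith
      push_cast
      field_simp
      ring
    rw [hy, Finset.sum_mul, Finset.sum_congr rfl h1]
    exact hsum'
  have hyq : y ≤ 1 := by
    have h1 : (1 : ℝ) ≤ (q : ℝ) ^ (ℓ + M) := one_le_pow₀ (by linarith)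
    nlinarith
  set T : Finset (G → F) := insert 0 S₁ with hT
  have hTsum : ∑ w ∈ T, f w = 1 + y := by
    rw [hT, Finset.sum_insert h0S₁, hf0]
  have hpow := one_add_pow hy0 hyq ℓ
  -- the normalized words
  set S : Finset (Fin ℓ × G → F) := univ.filter fun w => w ≠ 0 ∧ ∀ i, cp w i ∈ T with hS
  have hcp0 : ∀ w ∈ S, (fun i => cp w i) ≠ 0 := by
    intro w hw h0
    apply (Finset.mem_filter.1 hw).2.1
    funext x
    exact congrFun (congrFun h0 x.1) x.2
  have hinj : Set.InjOn (fun (w : Fin ℓ × G → F) => fun i => cp w i) (S : Set _) := by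
    intro w _ w' _ hww
    funext x
    exact congrFun (congrFun hww x.1) x.2
  have hSsum : ∑ w ∈ S, ∏ i, f (cp w i) ≤ 2 ^ ℓ * y := by
    have h1 : ∑ w ∈ S, ∏ i, f (cp w i) = ∑ v ∈ S.image (fun w => fun i => cp w i), ∏ i, f (v i) := by
      rw [Finset.sum_image hinj]
    have h2 : S.image (fun w => fun i => cp w i) ⊆
        (Fintype.piFinset fun _ : Fin ℓ => T).erase 0 := by
      intro v hv
      obtain ⟨w, hw, rfl⟩ := Finset.mem_image.1 hv
      exact Finset.mem_erase.2 ⟨hcp0 w hw, Fintype.mem_piFinset.2 (Finset.mem_filter.1 hw).2.2⟩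
    have h3 : ∑ v ∈ S.image (fun w => fun i => cp w i), ∏ i, f (v i) ≤
        ∑ v ∈ (Fintype.piFinset fun _ : Fin ℓ => T).erase 0, ∏ i, f (v i) :=
      Finset.sum_le_sum_of_subset_of_nonneg h2 fun v _ _ => Finset.prod_nonneg fun i _ =>
        (hfpos _).le
    have h4 : ∏ _i : Fin ℓ, ∑ w ∈ T, f w =
        ∑ v ∈ Fintype.piFinset fun _ : Fin ℓ => T, ∏ i, f (v i) :=
      Finset.prod_univ_sum _ _
    rw [Finset.prod_const, Finset.card_univ, Fintype.card_fin, hTsum] at h4
    have h5 : (0 : Fin ℓ → G → F) ∈ Fintype.piFinset fun _ : Fin ℓ => T :=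
      Fintype.mem_piFinset.2 fun i => Finset.mem_insert_self _ _
    have h6 := Finset.add_sum_erase _ (fun v : Fin ℓ → G → F => ∏ i, f (v i)) h5
    have h7 : ∏ i : Fin ℓ, f ((0 : Fin ℓ → G → F) i) = 1 :=
      Finset.prod_eq_one fun i _ => hf0
    rw [h7, ← h4] at h6
    rw [h1]
    nlinarith
  -- the number of bad `b`
  have hbad : ∀ w : Fin ℓ × G → F, (Nat.card {b : Fin ℓ × G → F // Lb b w ∈ Y} : ℝ) ≤
      (q : ℝ) ^ (ℓ * Fintype.card G) * ((q : ℝ) ^ M * ∏ i, f (cp w i)) := by
    intro w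
    set V := LinearMap.range (Lw w) with hV
    have h1 := finrank_comap (Lw w) Y
    rw [finrank_fintype_fun_eq_card, Fintype.card_prod, Fintype.card_fin] at h1
    have h2 := hYV V (range_Lw_R w)
    have h3 : Nat.card {b : Fin ℓ × G → F // Lb b w ∈ Y} = q ^ finrank F (Y.comap (Lw w)) := by
      have h4 : Nat.card {b : Fin ℓ × G → F // Lb b w ∈ Y} = Nat.card (Y.comap (Lw w)) := rfl
      rw [h4, Nat.card_eq_fintype_card, Module.card_eq_pow_finrank (K := F)]
    rw [h3]
    set k := finrank F (Y.comap (Lw w)) with hk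
    set v := finrank F V with hv
    set vy := finrank F (V ⊓ Y : Submodule F (G → F)) with hvy
    have h5 : ∏ i, f (cp w i) =
        (q : ℝ) ^ (∑ i : Fin ℓ, (-(rb F j (cp w i) : ℝ) / ((n * ℓ : ℕ) : ℝ))) := by
      rw [Real.rpow_sum_of_pos (by linarith)]
    rw [h5]
    push_cast
    rw [← Real.rpow_natCast (q : ℝ) k, ← Real.rpow_natCast (q : ℝ) (ℓ * Fintype.card G),
      ← Real.rpow_natCast (q : ℝ) M, ← Real.rpow_add (by linarith), ← Real.rpow_add (by linarith)]
    apply Real.rpow_le_rpow_of_exponent_le (by linarith)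
    have h8 : ∀ i : Fin ℓ, (rb F j (cp w i) : ℝ) ≤ v := by
      intro i
      have h9 := (rb_le_Vw (F := F) (j := j) (cp w i)).trans
        (Submodule.finrank_mono (Vw_le_range w i))
      exact_mod_cast h9
    have h9 : ∀ i ∈ (univ : Finset (Fin ℓ)), -(v : ℝ) / ((n : ℝ) * ℓ) ≤
        -(rb F j (cp w i) : ℝ) / ((n : ℝ) * ℓ) := by
      intro i _
      apply div_le_div_of_nonneg_right _ (by positivity)
      linarith [h8 i]
    have h10 := Finset.sum_le_sum h9
    rw [Finset.sum_const, Finset.card_univ, Fintype.card_fin, nsmul_eq_mul] at h10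
    have h11 : (ℓ : ℝ) * (-(v : ℝ) / ((n : ℝ) * ℓ)) = -(v : ℝ) / n := by
      have h2 : (0 : ℝ) < n := by linarith
      have h3 : (0 : ℝ) < ℓ := by linarith
      field_simp
    rw [h11] at h10
    have h12 : (k : ℝ) + v = ℓ * Fintype.card G + vy := by exact_mod_cast h1
    have h13 : (v : ℝ) + n * vy ≤ n * v + M := by exact_mod_cast h2
    have h14 : (v : ℝ) / n + vy ≤ v + M := by
      have h15 : (v : ℝ) / n + vy ≤ v + M / n := by
        rw [← sub_nonneg]
        have : (v : ℝ) + M / n - (v / n + vy) = (n * v + M - (v + n * vy)) / n := by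
          have h2 : (0 : ℝ) < n := by linarith
          field_simp
        rw [this]
        apply div_nonneg _ (by linarith)
        linarith
      have h16 : (M : ℝ) / n ≤ M := div_le_self (Nat.cast_nonneg M) hnR
      linarith
    have h15 : -(v : ℝ) / n = -(v / n) := neg_div _ _
    push_cast
    rw [h15] at h10
    linarith
  -- a good `b`
  obtain ⟨b, hb⟩ : ∃ b : Fin ℓ × G → F, ∀ w ∈ S, Lb b w ∉ Y := by
    by_contra hcon
    push Not at hcon
    have h1 : (univ : Finset (Fin ℓ × G → F)) ⊆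
        S.biUnion fun w => univ.filter fun b => Lb b w ∈ Y := by
      intro b _
      obtain ⟨w, hw, hwb⟩ := hcon b
      exact Finset.mem_biUnion.2 ⟨w, hw, Finset.mem_filter.2 ⟨mem_univ _, hwb⟩⟩
    have h2 := (Finset.card_le_card h1).trans Finset.card_biUnion_le
    rw [Finset.card_univ, Fintype.card_fun, Fintype.card_prod, Fintype.card_fin] at h2
    have h3 : ((q : ℝ)) ^ (ℓ * Fintype.card G) ≤
        ∑ w ∈ S, (Nat.card {b : Fin ℓ × G → F // Lb b w ∈ Y} : ℝ) := by
      have h4 : ((q ^ (ℓ * Fintype.card G) : ℕ) : ℝ) ≤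
          ((∑ w ∈ S, (univ.filter fun b : Fin ℓ × G → F => Lb b w ∈ Y).card : ℕ) : ℝ) := by
        exact_mod_cast h2
      push_cast at h4
      refine h4.trans (le_of_eq ?_)
      refine Finset.sum_congr rfl fun w _ => ?_
      rw [Nat.card_eq_fintype_card, Fintype.card_subtype]
    have h5 : ∑ w ∈ S, (Nat.card {b : Fin ℓ × G → F // Lb b w ∈ Y} : ℝ) ≤
        (q : ℝ) ^ (ℓ * Fintype.card G) * ((q : ℝ) ^ M * ∑ w ∈ S, ∏ i, f (cp w i)) := by
      rw [Finset.mul_sum, Finset.mul_sum]
      exact Finset.sum_le_sum fun w _ => hbad w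
    have hqG : (0 : ℝ) < (q : ℝ) ^ (ℓ * Fintype.card G) := by positivity
    have hqM : (0 : ℝ) < (q : ℝ) ^ M := by positivity
    have h7 : (q : ℝ) ^ M * ∑ w ∈ S, ∏ i, f (cp w i) < 1 := by
      have h8 : (2 : ℝ) ^ ℓ ≤ (q : ℝ) ^ ℓ := pow_le_pow_left₀ (by norm_num) hqR _
      calc (q : ℝ) ^ M * ∑ w ∈ S, ∏ i, f (cp w i) ≤ (q : ℝ) ^ M * (2 ^ ℓ * y) :=
            mul_le_mul_of_nonneg_left hSsum hqM.le
        _ ≤ (q : ℝ) ^ M * ((q : ℝ) ^ ℓ * y) := by
            apply mul_le_mul_of_nonneg_left _ hqM.le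
            exact mul_le_mul_of_nonneg_right h8 hy0
        _ = y * (q : ℝ) ^ (ℓ + M) := by rw [pow_add]; ring
        _ < 1 := hy1
    have h6 := h3.trans h5
    nlinarith
  refine ⟨Y.comap (Lb b), ?_, ?_, ?_⟩
  · intro c hc z
    rw [Submodule.mem_comap] at hc ⊢
    rw [Lb_shift]
    exact hY _ hc z
  · have h1 := finrank_comap (Lb b) Y
    rw [finrank_fintype_fun_eq_card, Fintype.card_prod, Fintype.card_fin] at h1
    have h2 := Submodule.finrank_sup_add_finrank_inf_eq (LinearMap.range (Lb b)) Y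
    have h3 : finrank F (LinearMap.range (Lb b) ⊔ Y : Submodule F (G → F)) ≤
        finrank F (G → F) := Submodule.finrank_le _
    rw [finrank_fintype_fun_eq_card] at h3
    omega
  · intro c hc hc0
    by_contra hcon
    push Not at hcon
    rw [Submodule.mem_comap] at hc
    -- the weights of the components
    have hwsum : (∑ i, wt (cp c i)) = (univ.filter fun x : Fin ℓ × G => c x ≠ 0).card := by
      rw [Finset.card_filter, Fintype.sum_prod_type]
      refine Finset.sum_congr rfl fun i _ => ?_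
      unfold wt
      rw [Finset.card_filter]
      rfl
    have hw1 : ((∑ i, wt (cp c i) : ℕ) : ℝ) ≤ δ * m * Nat.card B := by
      rw [hwsum]
      refine hcon.trans ?_
      rw [hcardG, mul_assoc]
      exact mul_le_mul_of_nonneg_left (mul_le_mul_of_nonneg_right hmR hBpos.le) hδ0.le
    have hw2 : ((∑ i, wt (cp c i) : ℕ) : ℝ) ≤ θ * Nat.card B := by
      refine hw1.trans (mul_le_mul_of_nonneg_right ?_ hBpos.le)
      have h1 : δ ≤ θ / (m + 1) := min_le_left _ _
      rw [le_div_iff₀ hm1] at h1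
      nlinarith
    obtain ⟨z, hz⟩ := average (F := F) (x := x) hj (fun i => Ew F j x (cp c i)) (fun i => cp c i)
      θ hw2
    set c' : Fin ℓ × G → F := fun p => c (p.1, z * p.2) with hc'
    have hc'0 : c' ≠ 0 := by
      intro h
      apply hc0
      funext p
      have h1 : c (p.1, z * (z⁻¹ * p.2)) = 0 := congrFun h (p.1, z⁻¹ * p.2)
      rw [mul_inv_cancel_left] at h1
      exact h1
    have hcp' : ∀ i, cp c' i = Lt F z (cp c i) := fun i => rfl
    refine hb c' (Finset.mem_filter.2 ⟨mem_univ _, hc'0, fun i => ?_⟩) ?_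
    · rw [hcp', hT, Finset.mem_insert]
      by_cases hi : cp c i = 0
      · left
        rw [hi, map_zero]
      · right
        refine Finset.mem_filter.2 ⟨mem_univ _, ?_, ?_⟩
        · rw [rb_Lt]
          have h1 := uncertainty (F := F) hj (cp c i) hi
          have h2 : (Nat.card B : ℝ) ≤ rb F j (cp c i) * wt (cp c i) := by exact_mod_cast h1
          have h2' : (wt (cp c i) : ℝ) ≤ ((∑ i, wt (cp c i) : ℕ) : ℝ) := by
            exact_mod_cast Finset.single_le_sum (f := fun i => wt (cp c i))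
              (fun _ _ => Nat.zero_le _) (mem_univ i)
          have h3 : (rb F j (cp c i) : ℝ) * wt (cp c i) ≤ rb F j (cp c i) * (δ * m * Nat.card B) :=
            mul_le_mul_of_nonneg_left (h2'.trans hw1) (Nat.cast_nonneg _)
          have h4 : 1 ≤ (rb F j (cp c i) : ℝ) * (δ * m) := by
            have h5 : 1 * (Nat.card B : ℝ) ≤ (rb F j (cp c i) : ℝ) * (δ * m) * Nat.card B := by
              calc 1 * (Nat.card B : ℝ) = Nat.card B := one_mul _
                _ ≤ rb F j (cp c i) * (δ * m * Nat.card B) := h2.trans h3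
                _ = _ := by ring
            exact le_of_mul_le_mul_right h5 hBpos
          have h6 : δ * m ≤ 1 / r₀ := by
            have h7 : δ ≤ 1 / ((m + 1) * r₀) := min_le_right _ _
            have h8 : δ * m ≤ 1 / ((m + 1) * r₀) * (m + 1) := by
              apply mul_le_mul h7 (by linarith) hm0 (by positivity)
            refine h8.trans (le_of_eq ?_)
            field_simp
          have h9 : 1 ≤ (rb F j (cp c i) : ℝ) * (1 / r₀) :=
            h4.trans (mul_le_mul_of_nonneg_left h6 (Nat.cast_nonneg _))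
          have h10 : (r₀ : ℝ) ≤ rb F j (cp c i) := by
            rw [mul_one_div, le_div_iff₀ (by linarith)] at h9
            linarith
          exact_mod_cast h10
        · rw [Ew_Lt]
          exact hz i
    · rw [hc', Lb_shift]
      exact hY _ hc z

end Run7.h505.RV
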