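import Pool.Agent.Run7.h505.RV.Fm
import Pool.Agent.Run7.h505.RT.T

/-!
Left ideals: finite groups with a commutative normal subgroup and a small subgroup.
-/

set_option autoImplicit false

namespace Run7.h505.RV

open Module Finset Run7.h505.RT
open scoped Pointwise

section

variable {F : Type} [Field F] {G : Type} [Group G]

/-- intersections of subspaces of large dimension -/
theorem dim_inter {W : Type} [AddCommGroup W] [Module F W] [FiniteDimensional F W]
    (V : Submodule F W) {ι : Type} (s : Finset ι) (Y : ι → Submodule F W) :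
    finrank F V + ∑ i ∈ s, finrank F (V ⊓ Y i : Submodule F W) ≤
      s.card * finrank F V + finrank F (V ⊓ ⨅ i ∈ s, Y i : Submodule F W) := by
  classical
  induction s using Finset.induction_on with
  | empty =>
    have h0 : (⨅ i ∈ (∅ : Finset ι), Y i) = ⊤ := by simp
    rw [h0, inf_top_eq]
    simp
  | insert a s ha ih =>
    rw [Finset.sum_insert ha, Finset.card_insert_of_notMem ha]
    have h1 := Submodule.finrank_sup_add_finrank_inf_eq (V ⊓ ⨅ i ∈ s, Y i) (V ⊓ Y a)
    have h2 : finrank F ((V ⊓ ⨅ i ∈ s, Y i) ⊔ (V ⊓ Y a) : Submodule F W) ≤ finrank F V :=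
      Submodule.finrank_mono (sup_le inf_le_left inf_le_left)
    have h3 : ((V ⊓ ⨅ i ∈ s, Y i) ⊓ (V ⊓ Y a) : Submodule F W) ≤ V ⊓ ⨅ i ∈ insert a s, Y i := by
      refine le_inf (inf_le_left.trans inf_le_left) (le_iInf₂ fun i hi => ?_)
      rcases Finset.mem_insert.1 hi with rfl | hi'
      · exact inf_le_right.trans inf_le_right
      · exact (inf_le_left.trans inf_le_right).trans (iInf₂_le i hi')
    have h4 := Submodule.finrank_mono h3
    have h5 : (s.card + 1) * finrank F V = s.card * finrank F V + finrank F V := by ring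
    omega

/-- the functions fixed by the translations by a conjugate -/
theorem finrank_conj [Finite G] (V : Submodule F (G → F)) (hV : ∀ v ∈ V, ∀ a : G, R F a v ∈ V)
    (H : Subgroup G) (z : G) :
    finrank F (V ⊓ (Fix F H).map (R F z) : Submodule F (G → F)) =
      finrank F (V ⊓ Fix F H : Submodule F (G → F)) := by
  have hinj : Function.Injective (R F z : (G → F) → (G → F)) := by
    intro a b hab
    have := congrArg (R F z⁻¹) hab
    simp only [← Module.End.mul_apply, ← RT.R_mul, inv_mul_cancel, R_one, Module.End.one_apply]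
      at this
    exact this
  have h1 : (V ⊓ (Fix F H).map (R F z) : Submodule F (G → F)) = (V ⊓ Fix F H).map (R F z) := by
    apply le_antisymm
    · rintro _ ⟨hv, y, hy, rfl⟩
      refine ⟨y, ⟨?_, hy⟩, rfl⟩
      have := hV _ hv z⁻¹
      rw [← Module.End.mul_apply, ← RT.R_mul, inv_mul_cancel, R_one] at this
      exact this
    · rintro _ ⟨y, ⟨hy1, hy2⟩, rfl⟩
      exact ⟨hV _ hy1 z, y, hy2, rfl⟩
  rw [h1]
  exact (LinearEquiv.finrank_eq (Submodule.equivMapOfInjective _ hinj _)).symm

theorem mem_Fix {H : Subgroup G} {f : G → F} : f ∈ Fix F H ↔ ∀ x ∈ H, R F x f = f := Iff.rfl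

/-- the bound needed for the existence theorem -/
theorem fix_bound [Finite G] {d : ℕ} (A H : Subgroup G) [A.Normal]
    (hA : ∀ a ∈ A, ∀ b ∈ A, a * b = b * a) (g : Fin d → G)
    (hg : A = Subgroup.closure (Set.range g)) {M : ℕ} (hM : (⁅A, H⁆ ⊔ H).index ≤ M)
    (V : Submodule F (G → F)) (hV : ∀ v ∈ V, ∀ a : G, R F a v ∈ V) :
    finrank F V + (d + 1) * finrank F (V ⊓ Fix F H : Submodule F (G → F)) ≤
      (d + 1) * finrank F V + M := by
  classical
  have := Fintype.ofFinite G
  set gs : Option (Fin d) → G := fun i => i.elim 1 g with hgs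
  have h1 := dim_inter (F := F) V (univ : Finset (Option (Fin d)))
    (fun i => (Fix F H).map (R F (gs i)))
  rw [Finset.sum_congr rfl fun i _ => finrank_conj V hV H (gs i), Finset.sum_const,
    Finset.card_univ, Fintype.card_option, Fintype.card_fin, smul_eq_mul] at h1
  refine h1.trans (Nat.add_le_add_left ?_ _)
  refine le_trans ?_ hM
  rw [← finrank_Fix (F := F)]
  apply Submodule.finrank_mono
  rintro f ⟨_, hf⟩
  -- the stabilizer of `f`
  let St : Subgroup G :=
    { carrier := {x | R F x f = f}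
      one_mem' := by show R F 1 f = f; rw [R_one]; rfl
      mul_mem' := by
        intro x y hx hy
        have hx' : R F x f = f := hx
        have hy' : R F y f = f := hy
        show R F (x * y) f = f
        rw [RT.R_mul, Module.End.mul_apply, hy', hx']
      inv_mem' := by
        intro x hx
        have hx' : R F x f = f := hx
        show R F x⁻¹ f = f
        conv_lhs => rw [← hx']
        rw [← Module.End.mul_apply, ← RT.R_mul, inv_mul_cancel, R_one]
        rfl }
  have hmem : ∀ i : Option (Fin d), ∀ h ∈ H, gs i * h * (gs i)⁻¹ ∈ St := by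
    intro i h hh
    have h2 : f ∈ (Fix F H).map (R F (gs i)) := by
      have := (Submodule.mem_iInf _).1 hf i
      exact (Submodule.mem_iInf _).1 this (mem_univ i)
    obtain ⟨y, hy, rfl⟩ := h2
    show R F (gs i * h * (gs i)⁻¹) (R F (gs i) y) = R F (gs i) y
    rw [← Module.End.mul_apply, ← RT.R_mul, inv_mul_cancel_right, RT.R_mul, Module.End.mul_apply,
      mem_Fix.1 hy h hh]
  have hH : H ≤ St := by
    intro h hh
    have := hmem none h hh
    simpa [hgs] using this
  have hAH : ⁅A, H⁆ ≤ St := by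
    rw [Subgroup.commutator_le]
    intro a ha h hh
    have hconj : ∀ b ∈ A, h * b * h⁻¹ ∈ A := fun b hb =>
      (inferInstance : A.Normal).conj_mem b hb h
    -- the set of good `a`
    let P : Subgroup G :=
      { carrier := {a | a ∈ A ∧ a * h * a⁻¹ * h⁻¹ ∈ St}
        one_mem' := ⟨A.one_mem, by simp [St.one_mem]⟩
        mul_mem' := by
          rintro a b ⟨ha, ha2⟩ ⟨hb, hb2⟩
          refine ⟨A.mul_mem ha hb, ?_⟩
          have h1 : h * b⁻¹ * h⁻¹ ∈ A := hconj _ (A.inv_mem hb)
          have h2 : h * a⁻¹ * h⁻¹ ∈ A := hconj _ (A.inv_mem ha)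
          have h3 := hA _ h1 _ h2
          have h4 : b * (h * a⁻¹ * h⁻¹) = (h * a⁻¹ * h⁻¹) * b := hA _ hb _ h2
          have e : (a * b) * h * (a * b)⁻¹ * h⁻¹ = a * h * a⁻¹ * h⁻¹ * (b * h * b⁻¹ * h⁻¹) := by
            calc (a * b) * h * (a * b)⁻¹ * h⁻¹ =
                a * (b * ((h * b⁻¹ * h⁻¹) * (h * a⁻¹ * h⁻¹))) := by group
              _ = a * ((b * (h * a⁻¹ * h⁻¹)) * (h * b⁻¹ * h⁻¹)) := by rw [h3]; group
              _ = a * (((h * a⁻¹ * h⁻¹) * b) * (h * b⁻¹ * h⁻¹)) := by rw [h4]
              _ = _ := by group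
          rw [e]
          exact St.mul_mem ha2 hb2
        inv_mem' := by
          rintro a ⟨ha, ha2⟩
          refine ⟨A.inv_mem ha, ?_⟩
          have h2 : h * a * h⁻¹ ∈ A := hconj _ ha
          have e : a⁻¹ * h * a⁻¹⁻¹ * h⁻¹ = (a * h * a⁻¹ * h⁻¹)⁻¹ := by
            have h3 := hA _ (A.inv_mem ha) _ h2
            calc a⁻¹ * h * a⁻¹⁻¹ * h⁻¹ = a⁻¹ * (h * a * h⁻¹) := by group
              _ = (h * a * h⁻¹) * a⁻¹ := h3
              _ = _ := by group
          rw [e]
          exact St.inv_mem ha2 }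
    have hP : A ≤ P := by
      conv_lhs => rw [hg]
      rw [Subgroup.closure_le]
      rintro _ ⟨i, rfl⟩
      have hgi : g i ∈ A := by
        rw [hg]
        exact Subgroup.subset_closure ⟨i, rfl⟩
      exact ⟨hgi, St.mul_mem (hmem (some i) h hh) (St.inv_mem (hH hh))⟩
    exact (hP ha).2
  intro x hx
  exact (sup_le hAH hH) hx

theorem card_sup_le [Finite G] (A H : Subgroup G) [A.Normal] :
    Nat.card (A ⊔ H : Subgroup G) ≤ Nat.card A * Nat.card H := by
  have h1 : ∀ x : (A ⊔ H : Subgroup G), ∃ z : A × H, (z.1 : G) * z.2 = x := by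
    rintro ⟨x, hx⟩
    have hx' : x ∈ (A : Set G) * (H : Set G) := by
      rw [← Subgroup.normal_mul]
      exact hx
    obtain ⟨a, ha, b, hb, rfl⟩ := hx'
    exact ⟨(⟨a, ha⟩, ⟨b, hb⟩), rfl⟩
  choose f hf using h1
  have hinj : Function.Injective f := by
    intro x y hxy
    apply Subtype.ext
    rw [← hf x, ← hf y, hxy]
  have h2 := Nat.card_le_card_of_injective f hinj
  rwa [Nat.card_prod] at h2

end

/-- the elements of a subgroup generated by commuting elements -/
theorem gp_surj {B : Type} [CommGroup B] [Finite B] {d : ℕ} (x : Fin d → B)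
    (hx : Subgroup.closure (Set.range x) = ⊤) (b : B) : ∃ α : Fin d → ℕ, b = gp x α := by
  have hb : b ∈ Subgroup.closure (Set.range x) := by rw [hx]; trivial
  have hinv : ∀ b : B, (∃ α : Fin d → ℕ, b = gp x α) → ∀ n : ℕ, ∃ α : Fin d → ℕ, b ^ n = gp x α := by
    rintro b ⟨α, rfl⟩ n
    refine ⟨fun i => α i * n, ?_⟩
    unfold gp
    rw [← Finset.prod_pow]
    exact Finset.prod_congr rfl fun i _ => (pow_mul _ _ _).symm
  induction hb using Subgroup.closure_induction with
  | mem y hy =>
    obtain ⟨i, rfl⟩ := hy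
    refine ⟨Pi.single i 1, ?_⟩
    unfold gp
    rw [Finset.prod_eq_single i]
    · simp
    · intro k _ hk
      rw [Pi.single_eq_of_ne hk, pow_zero]
    · simp
  | one => exact ⟨0, by simp [gp]⟩
  | mul y z _ _ hy hz =>
    obtain ⟨α, hα⟩ := hy
    obtain ⟨β, hβ⟩ := hz
    refine ⟨α + β, ?_⟩
    rw [gp_add, ← hα, ← hβ]
  | inv y _ hy =>
    have h2 : y⁻¹ = y ^ (orderOf y - 1) := by
      have h3 : 0 < orderOf y := orderOf_pos y
      rw [inv_eq_iff_mul_eq_one, ← pow_succ', Nat.sub_add_cancel h3, pow_orderOf_eq_one]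
    rw [h2]
    exact hinv y hy _

open Classical in
/-- **Good codes**, version for subgroups. -/
theorem good_sub (F : Type) [Field F] [Fintype F] (m d ℓ n M : ℕ) (hℓ : 1 ≤ ℓ) (hn : 1 ≤ n) :
    ∃ δ : ℝ, 0 < δ ∧ ∀ (G : Type) [Group G] [Fintype G] (A : Subgroup G) (g : Fin d → G),
      A = Subgroup.closure (Set.range g) → (∀ a ∈ A, ∀ b ∈ A, a * b = b * a) → A.index ≤ m →
      ∀ Y : Submodule F (G → F), (∀ y ∈ Y, ∀ z : G, (fun x => y (z * x)) ∈ Y) →
      (∀ V : Submodule F (G → F), (∀ v ∈ V, ∀ a : G, R F a v ∈ V) →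
        finrank F V + n * finrank F (V ⊓ Y : Submodule F (G → F)) ≤ n * finrank F V + M) →
      ∃ C : Submodule F (Fin ℓ × G → F),
        (∀ c ∈ C, ∀ z : G, (fun x : Fin ℓ × G => c (x.1, z * x.2)) ∈ C) ∧
        ℓ * Fintype.card G + finrank F Y ≤ finrank F C + Fintype.card G ∧
        ∀ c ∈ C, c ≠ 0 → δ * Fintype.card G <
          ((univ.filter fun x : Fin ℓ × G => c x ≠ 0).card : ℝ) := by
  obtain ⟨δ, hδ, h⟩ := good_gen F m d ℓ n M hℓ hn
  refine ⟨δ, hδ, ?_⟩
  intro G _ _ A g hg hA hm Y hY hYV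
  let _ := cgA A hA
  have : Fintype A := Fintype.ofFinite A
  let j : A →* G := A.subtype
  have hj : Function.Injective j := A.subtype_injective
  have hgi : ∀ i, g i ∈ A := by
    intro i
    rw [hg]
    exact Subgroup.subset_closure ⟨i, rfl⟩
  let x : Fin d → A := fun i => ⟨g i, hgi i⟩
  have hx : Subgroup.closure (Set.range x) = ⊤ := by
    have h1 : (Subgroup.closure (Set.range x)).map j = A := by
      rw [MonoidHom.map_closure, ← Set.range_comp]
      exact hg.symm
    rw [eq_top_iff]
    intro a _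
    have h2 : (a : G) ∈ (Subgroup.closure (Set.range x)).map j := by rw [h1]; exact a.2
    obtain ⟨b, hb, hba⟩ := h2
    have : b = a := hj hba
    rwa [← this]
  have hidx : j.range.index ≤ m := by
    have : j.range = A := A.range_subtype
    rw [this]
    exact hm
  exact h G A j x hj (gp_surj x hx) hidx Y hY hYV

end Run7.h505.RV
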