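import Pool.Agent.Run7.h505.RV.H

/-!
Left ideals of small groups extended by commutative groups; `p`-groups with bounded abelianization.
-/

set_option autoImplicit false

namespace Run7.h505.RV

open Module Finset Run7.h505.RT
open scoped Pointwise commutatorElement

theorem index_le {G : Type} [Group G] [Finite G] (A H : Subgroup G) [A.Normal] {s M : ℕ}
    (hH : Nat.card H ≤ s) (hM : (⁅A, H⁆ ⊔ H).index ≤ M) : A.index ≤ M * s := by
  have h1 : Nat.card (⁅A, H⁆ ⊔ H : Subgroup G) ≤ Nat.card A * Nat.card H := by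
    refine le_trans ?_ (card_sup_le A H)
    apply Nat.card_le_card_of_injective _ (Subgroup.inclusion_injective _)
    apply sup_le _ le_sup_right
    rw [Subgroup.commutator_le]
    intro a ha h hh
    have h2 : h * a⁻¹ * h⁻¹ ∈ A := (inferInstance : A.Normal).conj_mem _ (A.inv_mem ha) h
    have h3 : a * (h * a⁻¹ * h⁻¹) ∈ A := A.mul_mem ha h2
    have e : ⁅a, h⁆ = a * (h * a⁻¹ * h⁻¹) := by rw [commutatorElement_def]; group
    rw [e]
    exact Subgroup.mem_sup_left h3
  have e3 := (⁅A, H⁆ ⊔ H : Subgroup G).card_mul_index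
  have e4 := A.card_mul_index
  have hApos : 0 < Nat.card A := Nat.card_pos
  apply Nat.le_of_mul_le_mul_left _ hApos
  calc Nat.card A * A.index = Nat.card (⁅A, H⁆ ⊔ H : Subgroup G) * (⁅A, H⁆ ⊔ H).index := by
        rw [e3, e4]
    _ ≤ (Nat.card A * Nat.card H) * M := Nat.mul_le_mul h1 hM
    _ ≤ (Nat.card A * s) * M := Nat.mul_le_mul_right _ (Nat.mul_le_mul_left _ hH)
    _ = Nat.card A * (M * s) := by ring

/-- **Good left ideals.** -/
theorem good_left (F : Type) [Field F] [Fintype F] (d s M : ℕ) :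
    ∃ δ : ℝ, 0 < δ ∧ ∀ (G : Type) [Group G] [Fintype G] (A H : Subgroup G) [A.Normal]
      (g : Fin d → G), A = Subgroup.closure (Set.range g) → (∀ a ∈ A, ∀ b ∈ A, a * b = b * a) →
      Nat.card H ≤ s → (⁅A, H⁆ ⊔ H).index ≤ M →
      ∃ C : Submodule F (G → F), (∀ c ∈ C, ∀ z : G, (fun x => c (z * x)) ∈ C) ∧
        Fintype.card G ≤ s * finrank F C ∧ ∀ c ∈ C, c ≠ 0 → δ * Fintype.card G < wt c := by
  classical
  obtain ⟨δ, hδ, h⟩ := good_sub F (M * s) d 1 (d + 1) M le_rfl (by omega)
  refine ⟨δ, hδ, ?_⟩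
  intro G _ _ A H _ g hg hA hH hM
  obtain ⟨C, hC1, hC2, hC3⟩ := h G A g hg hA (index_le A H hH hM) (Fix F H)
    (by
      intro y hy z x hx
      have h1 := congrFun (mem_Fix.1 hy x hx)
      funext u
      have h2 := h1 (z * u)
      show y (z * (u * x)) = y (z * u)
      rw [← mul_assoc]
      exact h2)
    (fun V hV => fix_bound A H hA g hg hM V hV)
  rw [finrank_Fix] at hC2
  let e : (G → F) ≃ₗ[F] (Fin 1 × G → F) := LinearEquiv.funCongrLeft F F (Equiv.uniqueProd G (Fin 1))
  have he : ∀ (f : G → F) (i : Fin 1) (x : G), e f (i, x) = f x := fun f i x => rfl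
  refine ⟨C.map (e.symm : (Fin 1 × G → F) →ₗ[F] (G → F)), ?_, ?_, ?_⟩
  · rintro _ ⟨c, hc, rfl⟩ z
    refine ⟨_, hC1 c hc z, ?_⟩
    rfl
  · rw [LinearEquiv.finrank_map_eq]
    have h1 : H.index ≤ finrank F C := by omega
    have h2 := Subgroup.card_mul_index H
    rw [← Nat.card_eq_fintype_card, ← h2]
    exact Nat.mul_le_mul hH h1
  · rintro _ ⟨c, hc, rfl⟩ hc0
    have hc0' : c ≠ 0 := by
      rintro rfl
      exact hc0 (map_zero _)
    refine lt_of_lt_of_le (hC3 c hc hc0') ?_
    rw [Nat.cast_le]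
    unfold wt
    apply Finset.card_le_card_of_injOn (fun x => x.2)
    · rintro ⟨i, x⟩ hx
      rw [Finset.mem_coe, Finset.mem_filter] at hx ⊢
      have hi : i = 0 := Subsingleton.elim _ _
      subst hi
      exact ⟨mem_univ _, hx.2⟩
    · rintro ⟨i, x⟩ _ ⟨i', x'⟩ _ hxx
      exact Prod.ext (Subsingleton.elim _ _) hxx

/-- a set of representatives of the abelianization of a finite `p`-group generates it -/
theorem gen_p {p : ℕ} [Fact p.Prime] {G : Type} [Group G] [Finite G] (hG : IsPGroup p G)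
    (S : Set G) (hS : ∀ x : G, ∃ s ∈ S, s⁻¹ * x ∈ commutator G) : Subgroup.closure S = ⊤ := by
  have hn : Group.IsNilpotent G := hG.isNilpotent
  rcases eq_top_or_exists_le_coatom (Subgroup.closure S) with h | ⟨K, hK, hSK⟩
  · exact h
  · exfalso
    have hKn : K.Normal := Subgroup.NormalizerCondition.normal_of_coatom K
      Group.normalizerCondition_of_isNilpotent hK
    have hle : commutator G ≤ K := by
      by_contra hcon
      have h1 : K ⊔ commutator G = ⊤ := by
        apply hK.2
        exact lt_of_le_of_ne le_sup_left fun h => hcon (h ▸ le_sup_right)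
      have h2 : (commutator G).map (QuotientGroup.mk' K) = ⊤ := by
        have h3 : (K ⊔ commutator G).map (QuotientGroup.mk' K) = ⊤ := by
          rw [h1]
          exact Subgroup.map_top_of_surjective _ (QuotientGroup.mk'_surjective K)
        rw [Subgroup.map_sup, QuotientGroup.map_mk'_self, bot_sup_eq] at h3
        exact h3
      have h4 : commutator (G ⧸ K) = ⊤ := by
        rw [← h2, commutator_def (G ⧸ K), commutator_def G, Subgroup.map_commutator,
          Subgroup.map_top_of_surjective _ (QuotientGroup.mk'_surjective K)]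
      have hnt : Nontrivial (G ⧸ K) := QuotientGroup.nontrivial_iff.2 hK.1
      have hnq : Group.IsNilpotent (G ⧸ K) := inferInstance
      have h5 := Group.IsSolvable.commutator_lt_top_of_nontrivial (G ⧸ K)
      rw [h4] at h5
      exact lt_irrefl _ h5
    apply hK.1
    rw [eq_top_iff]
    intro x _
    obtain ⟨s, hs, hsx⟩ := hS x
    have h1 : s ∈ K := hSK (Subgroup.subset_closure hs)
    have h2 : x = s * (s⁻¹ * x) := by group
    rw [h2]
    exact K.mul_mem h1 (hle hsx)

/-- subgroups of bounded index of finite `p`-groups with bounded abelianization -/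
theorem sub_gen {p : ℕ} [Fact p.Prime] {G : Type} [Group G] [Finite G] (hG : IsPGroup p G)
    (A : Subgroup G) {s M : ℕ} (hs : A.index ≤ s) (hM : Nat.card (Abelianization G) ≤ M) :
    ∃ g : Fin (s * M) → G, A = Subgroup.closure (Set.range g) := by
  classical
  have := Fintype.ofFinite (Abelianization G)
  have hsurj : Function.Surjective (Abelianization.of : G →* Abelianization G) :=
    QuotientGroup.mk'_surjective (commutator G)
  let r : Abelianization G → G := Function.surjInv hsurj
  have hr : ∀ a, Abelianization.of (r a) = a := Function.surjInv_eq hsurj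
  let S : Finset G := univ.image r
  have hS : Subgroup.closure (S : Set G) = ⊤ := by
    apply gen_p hG
    intro x
    refine ⟨r (Abelianization.of x), Finset.mem_coe.2 (Finset.mem_image.2 ⟨_, mem_univ _, rfl⟩), ?_⟩
    rw [← Abelianization.ker_of, MonoidHom.mem_ker, map_mul, map_inv, hr, inv_mul_cancel]
  obtain ⟨T, hT, hTc⟩ := Subgroup.exists_finset_card_le_mul A hS
  have hcard : T.card ≤ s * M := by
    refine hT.trans (Nat.mul_le_mul hs ?_)
    refine Finset.card_image_le.trans ?_
    rw [Finset.card_univ, ← Nat.card_eq_fintype_card]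
    exact hM
  -- an enumeration
  have e := T.equivFin
  let g : Fin (s * M) → G := fun i => if h : (i : ℕ) < T.card then ((e.symm ⟨i, h⟩ : A) : G) else 1
  refine ⟨g, ?_⟩
  apply le_antisymm
  · intro a ha
    have h1 : (⟨a, ha⟩ : A) ∈ Subgroup.closure (T : Set A) := by rw [hTc]; trivial
    have h2 : Subgroup.closure (T : Set A) ≤ (Subgroup.closure (Set.range g)).comap A.subtype := by
      rw [Subgroup.closure_le]
      intro t ht
      apply Subgroup.subset_closure
      have ht' : t ∈ T := Finset.mem_coe.1 ht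
      refine ⟨⟨(e ⟨t, ht'⟩ : ℕ), lt_of_lt_of_le (e ⟨t, ht'⟩).2 hcard⟩, ?_⟩
      show (if h : ((e ⟨t, ht'⟩ : ℕ)) < T.card then ((e.symm ⟨_, h⟩ : A) : G) else 1) = _
      rw [dif_pos (e ⟨t, ht'⟩).2]
      have h3 : (⟨((e ⟨t, ht'⟩ : Fin T.card) : ℕ), (e ⟨t, ht'⟩).2⟩ : Fin T.card) = e ⟨t, ht'⟩ := rfl
      rw [h3, Equiv.symm_apply_apply]
      rfl
    exact h2 h1
  · rw [Subgroup.closure_le]
    rintro _ ⟨i, rfl⟩
    show g i ∈ A
    by_cases h : (i : ℕ) < T.card
    · have : g i = ((e.symm ⟨i, h⟩ : A) : G) := dif_pos h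
      rw [this]
      exact ((e.symm ⟨i, h⟩ : T) : A).2
    · have : g i = 1 := dif_neg h
      rw [this]
      exact A.one_mem

/-- if `G = A H` with `A` normal and commutative, then `[A, H] H` contains the commutators -/
theorem comm_le {G : Type} [Group G] (A H : Subgroup G) [A.Normal]
    (hA : ∀ a ∈ A, ∀ b ∈ A, a * b = b * a) (hAH : A ⊔ H = ⊤) :
    commutator G ≤ ⁅A, H⁆ ⊔ H := by
  set K : Subgroup G := ⁅A, H⁆ ⊔ H with hK
  have hHK : H ≤ K := le_sup_right
  have hcomA : ∀ x ∈ ⁅A, H⁆, x ∈ A := by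
    have : ⁅A, H⁆ ≤ A := by
      rw [Subgroup.commutator_le]
      intro a ha h _
      have h2 : h * a⁻¹ * h⁻¹ ∈ A := (inferInstance : A.Normal).conj_mem _ (A.inv_mem ha) h
      have h3 : a * (h * a⁻¹ * h⁻¹) ∈ A := A.mul_mem ha h2
      have e : ⁅a, h⁆ = a * (h * a⁻¹ * h⁻¹) := by rw [commutatorElement_def]; group
      rw [e]
      exact h3
    exact this
  -- conjugation by elements of `A`
  have h1 : ∀ a ∈ A, ∀ x ∈ K, a * x * a⁻¹ ∈ K := by
    intro a ha
    have h2 : K ≤ K.comap (MulAut.conj a).toMonoidHom := by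
      conv_lhs => rw [hK]
      apply sup_le
      · intro x hx
        show a * x * a⁻¹ ∈ K
        have : a * x * a⁻¹ = x := by
          rw [hA a ha x (hcomA x hx), mul_inv_cancel_right]
        rw [this]
        exact Subgroup.mem_sup_left hx
      · intro h hh
        show a * h * a⁻¹ ∈ K
        have e : a * h * a⁻¹ = ⁅a, h⁆ * h := by rw [commutatorElement_def]; group
        rw [e]
        exact K.mul_mem (Subgroup.mem_sup_left (Subgroup.commutator_mem_commutator ha hh))
          (hHK hh)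
    intro x hx
    exact h2 hx
  have htop : ∀ x : G, ∃ a ∈ A, ∃ h ∈ H, a * h = x := by
    intro x
    have hx : x ∈ (A : Set G) * (H : Set G) := by
      rw [← Subgroup.normal_mul, hAH]
      trivial
    obtain ⟨a, ha, b, hb, hab⟩ := hx
    exact ⟨a, ha, b, hb, hab⟩
  have hKn : K.Normal := by
    constructor
    intro x hx z
    obtain ⟨a, ha, h, hh, rfl⟩ := htop z
    have e : a * h * x * (a * h)⁻¹ = a * (h * x * h⁻¹) * a⁻¹ := by group
    rw [e]
    exact h1 a ha _ (K.mul_mem (K.mul_mem (hHK hh) hx) (K.inv_mem (hHK hh)))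
  rw [← Subgroup.Normal.quotient_commutative_iff_commutator_le]
  have hrep : ∀ q : G ⧸ K, ∃ a ∈ A, (a : G ⧸ K) = q := by
    intro q
    obtain ⟨x, rfl⟩ := QuotientGroup.mk_surjective q
    obtain ⟨a, ha, h, hh, rfl⟩ := htop x
    refine ⟨a, ha, ?_⟩
    apply QuotientGroup.eq.2
    rw [inv_mul_cancel_left]
    exact hHK hh
  constructor
  constructor
  intro q r
  obtain ⟨a, ha, rfl⟩ := hrep q
  obtain ⟨b, hb, rfl⟩ := hrep r
  rw [← QuotientGroup.mk_mul, ← QuotientGroup.mk_mul, hA a ha b hb]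

/-- **Good left ideals** of `p`-groups `G = A H`. -/
theorem good_p (F : Type) [Field F] [Fintype F] (p : ℕ) [Fact p.Prime] (s M : ℕ) :
    ∃ δ : ℝ, 0 < δ ∧ ∀ (G : Type) [Group G] [Fintype G] (A H : Subgroup G) [A.Normal],
      IsPGroup p G → (∀ a ∈ A, ∀ b ∈ A, a * b = b * a) → A ⊔ H = ⊤ → Nat.card H ≤ s →
      Nat.card (Abelianization G) ≤ M →
      ∃ C : Submodule F (G → F), (∀ c ∈ C, ∀ z : G, (fun x => c (z * x)) ∈ C) ∧
        Fintype.card G ≤ s * finrank F C ∧ ∀ c ∈ C, c ≠ 0 → δ * Fintype.card G < wt c := by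
  obtain ⟨δ, hδ, h⟩ := good_left F (s * M) s M
  refine ⟨δ, hδ, ?_⟩
  intro G _ _ A H _ hG hA hAH hH hM
  have hidx : A.index ≤ s := by
    have h1 : Nat.card (A ⊔ H : Subgroup G) ≤ Nat.card A * Nat.card H := card_sup_le A H
    rw [hAH, Subgroup.card_top] at h1
    have e4 := A.card_mul_index
    have hApos : 0 < Nat.card A := Nat.card_pos
    apply Nat.le_of_mul_le_mul_left _ hApos
    rw [e4]
    exact h1.trans (Nat.mul_le_mul_left _ hH)
  obtain ⟨g, hg⟩ := sub_gen hG A hidx hM
  have h2 : (⁅A, H⁆ ⊔ H).index ≤ M := by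
    have h3 := Subgroup.index_antitone (comm_le A H hA hAH)
    exact h3.trans hM
  exact h G A H g hg hA hH h2

end Run7.h505.RV
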