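import Pool.Agent.Run7.h505.RV.K
import Pool.Agent.Run7.h505.RT.W

/-!
For every prime `p`: arbitrarily large finite `p`-groups with a commutative normal subgroup that has
a complement of order `p`, and with abelianization of order at most `p ^ 2`.
-/

set_option autoImplicit false

namespace Run7.h505.RV

open Module Finset Run7.h505.RT
open scoped Pointwise commutatorElement

/-- the sum of the values -/
def sumHom (p n : ℕ) [NeZero p] : (ZMod p → ZMod n) →+ ZMod n where
  toFun v := ∑ i, v i
  map_zero' := by simp
  map_add' v w := by simp [Finset.sum_add_distrib]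

/-- functions with sum zero -/
abbrev Vz (p n : ℕ) [NeZero p] : AddSubgroup (ZMod p → ZMod n) := (sumHom p n).ker

theorem mem_Vz {p n : ℕ} [NeZero p] {v : ZMod p → ZMod n} : v ∈ Vz p n ↔ ∑ i, v i = 0 := Iff.rfl

/-- the shift -/
def shift (p n : ℕ) [NeZero p] : Vz p n ≃+ Vz p n where
  toFun v := ⟨fun i => v.1 (i + 1), by
    rw [mem_Vz]
    rw [← mem_Vz.1 v.2]
    exact Fintype.sum_equiv (Equiv.addRight 1) _ _ fun i => rfl⟩
  invFun v := ⟨fun i => v.1 (i - 1), by
    rw [mem_Vz]
    rw [← mem_Vz.1 v.2]
    exact Fintype.sum_equiv (Equiv.subRight 1) _ _ fun i => rfl⟩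
  left_inv v := by
    apply Subtype.ext
    funext i
    show v.1 (i - 1 + 1) = v.1 i
    rw [sub_add_cancel]
  right_inv v := by
    apply Subtype.ext
    funext i
    show v.1 (i + 1 - 1) = v.1 i
    rw [add_sub_cancel_right]
  map_add' v w := rfl

theorem examples_all (p : ℕ) [hp : Fact p.Prime] (k : ℕ) :
    ∃ (G : Type) (_ : Group G) (_ : Fintype G), IsPGroup p G ∧ p ^ k ≤ Fintype.card G ∧
      (∃ A H : Subgroup G, A.Normal ∧ (∀ a ∈ A, ∀ b ∈ A, a * b = b * a) ∧ A ⊔ H = ⊤ ∧
        Nat.card H ≤ p) ∧
      Nat.card (Abelianization G) ≤ p ^ 2 := by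
  have hp2 : 2 ≤ p := hp.out.two_le
  have : NeZero p := ⟨hp.out.ne_zero⟩
  have : NeZero (p ^ k) := ⟨pow_ne_zero _ hp.out.ne_zero⟩
  set V := Vz p (p ^ k) with hV
  let s : MulAut (Multiplicative V) := AddEquiv.toMultiplicative (shift p (p ^ k))
  have hsn : ∀ (n : ℕ) (v : V) (i : ZMod p),
      ((s ^ n) (Multiplicative.ofAdd v)).toAdd.1 i = v.1 (i + n) := by
    intro n
    induction n with
    | zero => intro v i; simp
    | succ n ih =>
      intro v i
      rw [pow_succ]
      show ((s ^ n) (s (Multiplicative.ofAdd v))).toAdd.1 i = _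
      have h1 : s (Multiplicative.ofAdd v) = Multiplicative.ofAdd (shift p (p ^ k) v) := rfl
      rw [h1, ih]
      show v.1 (i + n + 1) = v.1 (i + (n + 1 : ℕ))
      push_cast
      rw [add_assoc]
  have hs : s ^ p = 1 := by
    apply MulEquiv.ext
    intro v
    apply Multiplicative.toAdd.injective
    apply Subtype.ext
    funext i
    have := hsn p v.toAdd i
    rw [CharP.cast_eq_zero, add_zero] at this
    exact this
  let φ := powHom p s hs
  let G := Multiplicative V ⋊[φ] Multiplicative (ZMod p)
  have hfinV : Finite (Multiplicative V) := inferInstanceAs (Finite V)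
  have hfin : Finite G := Finite.of_equiv _ (SemidirectProduct.equivProd (φ := φ)).symm
  have hcardW : Nat.card (ZMod p → ZMod (p ^ k)) = (p ^ k) ^ p := by
    rw [Nat.card_eq_fintype_card, Fintype.card_fun, ZMod.card, ZMod.card]
  have hcardV1 : Nat.card V * Nat.card (sumHom p (p ^ k)).range = (p ^ k) ^ p := by
    rw [← hcardW, ← AddSubgroup.index_ker, AddSubgroup.card_mul_index]
  have hVpow : ∃ a, Nat.card V = p ^ a := by
    have h1 : Nat.card V ∣ p ^ (k * p) := by
      rw [pow_mul, ← hcardV1]
      exact dvd_mul_right _ _
    obtain ⟨a, _, ha⟩ := (Nat.dvd_prime_pow hp.out).1 h1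
    exact ⟨a, ha⟩
  have hVbig : p ^ k ≤ Nat.card V := by
    have h1 : Nat.card (sumHom p (p ^ k)).range ≤ p ^ k := by
      have := Nat.card_le_card_of_injective _ (AddSubgroup.subtype_injective
        (sumHom p (p ^ k)).range)
      rwa [Nat.card_zmod] at this
    have hpos : 0 < p ^ k := Nat.pow_pos hp.out.pos
    have h2 : p ^ k * p ^ k ≤ (p ^ k) ^ p := by
      rw [← pow_two]
      exact Nat.pow_le_pow_right hpos hp2
    apply Nat.le_of_mul_le_mul_right _ hpos
    calc p ^ k * p ^ k ≤ (p ^ k) ^ p := h2
      _ = Nat.card V * Nat.card (sumHom p (p ^ k)).range := hcardV1.symm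
      _ ≤ Nat.card V * p ^ k := Nat.mul_le_mul_left _ h1
  have hcardV' : Nat.card (Multiplicative V) = Nat.card V := rfl
  have hcardZ : Nat.card (Multiplicative (ZMod p)) = p := Nat.card_zmod p
  have hcardG : Nat.card G = Nat.card V * p := by
    have := SemidirectProduct.card (φ := φ)
    rw [hcardV', hcardZ] at this
    exact this
  let _ : Fintype G := Fintype.ofFinite G
  refine ⟨G, inferInstance, inferInstance, ?_, ?_, ?_, ?_⟩
  · obtain ⟨a, ha⟩ := hVpow
    apply IsPGroup.of_card (n := a + 1)
    rw [hcardG, pow_succ, ha]
  · rw [← Nat.card_eq_fintype_card, hcardG]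
    calc p ^ k = p ^ k * 1 := by ring
      _ ≤ Nat.card V * p := Nat.mul_le_mul hVbig (by omega)
  · refine ⟨(SemidirectProduct.inl : Multiplicative V →* G).range,
      (SemidirectProduct.inr : Multiplicative (ZMod p) →* G).range, ?_, ?_, ?_, ?_⟩
    · rw [SemidirectProduct.range_inl_eq_ker_rightHom]
      infer_instance
    · rintro _ ⟨a, rfl⟩ _ ⟨b, rfl⟩
      rw [← map_mul, ← map_mul, mul_comm]
    · rw [eq_top_iff]
      intro x _
      rw [← SemidirectProduct.inl_left_mul_inr_right x]
      exact Subgroup.mul_mem_sup ⟨_, rfl⟩ ⟨_, rfl⟩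
    · have h1 : Nat.card (SemidirectProduct.inr : Multiplicative (ZMod p) →* G).range ≤
          Nat.card (Multiplicative (ZMod p)) :=
        Nat.card_le_card_of_surjective _ (MonoidHom.rangeRestrict_surjective _)
      rwa [hcardZ] at h1
  · -- the abelianization
    set f : V →+ V := (shift p (p ^ k)).toAddMonoidHom - AddMonoidHom.id V with hf
    have hfv : ∀ v : V, f v = shift p (p ^ k) v - v := fun v => rfl
    have h1 : ∀ v : V, (SemidirectProduct.inl (Multiplicative.ofAdd (f v)) : G) ∈
        commutator G := by
      intro v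
      have h2 : (SemidirectProduct.inl (Multiplicative.ofAdd (f v)) : G) =
          ⁅(SemidirectProduct.inr (Multiplicative.ofAdd 1) : G),
            (SemidirectProduct.inl (Multiplicative.ofAdd v) : G)⁆ := by
        rw [commutatorElement_def, ← map_inv (SemidirectProduct.inr : _ →* G),
          ← SemidirectProduct.inl_aut]
        have h3 : φ (Multiplicative.ofAdd 1) = s := by
          change s ^ (1 : ZMod p).val = s
          have : Fact (1 < p) := ⟨hp.out.one_lt⟩
          rw [ZMod.val_one, pow_one]
        rw [h3, ← map_inv, ← map_mul]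
        congr 1
        apply Multiplicative.toAdd.injective
        show f v = shift p (p ^ k) v + -v
        rw [hfv, sub_eq_add_neg]
      rw [h2]
      exact Subgroup.commutator_mem_commutator (Subgroup.mem_top _) (Subgroup.mem_top _)
    have h2 : Nat.card f.range ≤ Nat.card (commutator G) := by
      let ι : f.range → commutator G := fun u => ⟨SemidirectProduct.inl (Multiplicative.ofAdd u.1),
        by
          obtain ⟨v, hv⟩ := u.2
          rw [← hv]
          exact h1 v⟩
      apply Nat.card_le_card_of_injective ι
      intro a b hab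
      have h3 := congrArg Subtype.val hab
      have h4 := SemidirectProduct.inl_injective h3
      exact Subtype.ext (Multiplicative.ofAdd.injective h4)
    have h3 : Nat.card f.ker * Nat.card f.range = Nat.card V := by
      rw [← AddSubgroup.index_ker, AddSubgroup.card_mul_index]
    have h4 : Nat.card f.ker ≤ p := by
      -- the kernel consists of constant functions `c` with `p c = 0`
      have hconst : ∀ v : f.ker, ∀ i : ZMod p, v.1.1 i = v.1.1 0 := by
        intro v
        have h5 : shift p (p ^ k) v.1 = v.1 := by
          have := AddMonoidHom.mem_ker.1 v.2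
          rw [hfv, sub_eq_zero] at this
          exact this
        have h6 : ∀ i : ZMod p, v.1.1 (i + 1) = v.1.1 i := by
          intro i
          exact congrFun (congrArg Subtype.val h5) i
        have h7 : ∀ n : ℕ, v.1.1 (n : ZMod p) = v.1.1 0 := by
          intro n
          induction n with
          | zero => simp
          | succ n ih => push_cast; rw [h6, ih]
        intro i
        have := h7 i.val
        rwa [ZMod.natCast_zmod_val] at this
      have hker : ∀ v : f.ker, p • v.1.1 0 = 0 := by
        intro v
        have h5 : ∑ i, v.1.1 i = 0 := mem_Vz.1 v.1.2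
        rw [Finset.sum_congr rfl fun i _ => hconst v i, Finset.sum_const, Finset.card_univ,
          ZMod.card] at h5
        exact h5
      let g : f.ker → {c : ZMod (p ^ k) // p • c = 0} := fun v => ⟨v.1.1 0, hker v⟩
      have hg : Function.Injective g := by
        intro v w hvw
        apply Subtype.ext
        apply Subtype.ext
        funext i
        rw [hconst v, hconst w]
        exact congrArg Subtype.val hvw
      refine (Nat.card_le_card_of_injective g hg).trans ?_
      have h8 := IsAddCyclic.card_nsmul_eq_zero_le (α := ZMod (p ^ k)) hp.out.pos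
      rw [Nat.card_eq_fintype_card, Fintype.card_subtype]
      convert h8
    have h5 : Nat.card (commutator G) * (commutator G).index = Nat.card G :=
      (commutator G).card_mul_index
    have hpos : 0 < Nat.card (commutator G) := Nat.card_pos
    have h6 : (commutator G).index ≤ p ^ 2 := by
      apply Nat.le_of_mul_le_mul_left _ hpos
      rw [h5, hcardG, ← h3]
      calc Nat.card f.ker * Nat.card f.range * p ≤ p * Nat.card (commutator G) * p :=
            Nat.mul_le_mul_right _ (Nat.mul_le_mul h4 h2)
        _ = _ := by ring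
    exact h6

end Run7.h505.RV
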